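import Mathlib
import Pool.Graph.R_seed8.W777.MF.B2
set_option autoImplicit false

/-! The averaged estimate for measures of small mass. -/

namespace Pool.Agent.Helper25.CL

open MeasureTheory Set Complex
open scoped ENNReal NNReal FourierTransform
open Pool.Agent.H153R4
open Pool.Agent.W777.ST (block4s J4 J4_fin)

/-- the second moment -/
lemma two_mass {m : ℕ} (μ : Measure (Fin m → ℝ)) [SFinite μ] (L ρ : ℝ) (S : Set ℝ)
    (hρ : μ univ ≤ ENNReal.ofReal ρ) {M : ℝ} {g : E (m + 1) → ℂ} (hg : BS M g) :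
    ∫⁻ p, (∫⁻ x, ‖𝓕 (ch (sv p) g) x‖ₑ ^ 2)
        ∂((volume.restrict S).prod (μ.restrict (Icc (fun _ => -L) (fun _ => L)))) ≤
      volume S * ENNReal.ofReal ρ * ∫⁻ z, ‖g z‖ₑ ^ 2 := by
  simp only [two_ch hg]
  rw [lintegral_const, ← univ_prod_univ, Measure.prod_prod, Measure.restrict_apply_univ,
    Measure.restrict_apply_univ, mul_comm]
  gcongr
  exact (measure_mono (subset_univ _)).trans hρ

lemma four_two {n : ℕ} {g : E n → ℂ} (hg : BS 2 g) :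
    ∫⁻ z, ‖g z‖ₑ ^ 4 ≤ 4 * ∫⁻ z, ‖g z‖ₑ ^ 2 := by
  rw [← lintegral_const_mul _ (hg.meas.enorm.pow_const 2)]
  apply lintegral_mono
  intro z
  simp only
  have h1 : ‖g z‖ₑ ≤ 2 := by
    rw [← ofReal_norm]
    refine (ENNReal.ofReal_le_ofReal (hg.bd z)).trans (le_of_eq ?_)
    norm_num
  calc ‖g z‖ₑ ^ 4 = ‖g z‖ₑ ^ 2 * ‖g z‖ₑ ^ 2 := by ring
    _ ≤ 2 ^ 2 * ‖g z‖ₑ ^ 2 := by gcongr
    _ = _ := by norm_num

/-- the constant of a block -/
noncomputable def Cb (m : ℕ) (A L q : ℝ) : ℝ :=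
  2 ^ ((4 - q) / 2) * (2 * A * cL L ^ m) ^ ((q - 2) / 2)

lemma Cb_nonneg (m : ℕ) {A L : ℝ} (hA : 0 ≤ A) (hL : 1 ≤ L) (q : ℝ) : 0 ≤ Cb m A L q := by
  unfold Cb cL
  positivity

lemma Cb_eq (m : ℕ) (A L q β T : ℝ) (hA : 0 ≤ A) (hL : 1 ≤ L) (hT : 0 < T) :
    (2 * T) ^ ((4 - q) / 2) * (KT m A m L T β) ^ ((q - 2) / 2) =
      Cb m A L q * T ^ ((4 - q) / 2 - (m - (m + 1) * β) * ((q - 2) / 2)) := by
  have h1 : KT m A m L T β = (2 * A * cL L ^ m) * T ^ (-((m : ℝ) - (m + 1) * β)) := by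
    unfold KT
    have e1 : (T ^ β) ^ m = T ^ (m * β) := by
      rw [mul_comm, Real.rpow_mul hT.le, Real.rpow_natCast]
    rw [mul_pow, e1]
    have e2 : T ^ (-((m : ℝ) - (m + 1) * β)) = T ^ β * T ^ (-(m : ℝ)) * T ^ (m * β) := by
      rw [← Real.rpow_add hT, ← Real.rpow_add hT]
      congr 1
      ring
    rw [e2]
    ring
  have hc : 0 ≤ 2 * A * cL L ^ m := by
    unfold cL
    positivity
  rw [h1, Real.mul_rpow (by norm_num) hT.le, Real.mul_rpow hc (by positivity),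
    ← Real.rpow_mul hT.le]
  unfold Cb
  have e3 : T ^ ((4 - q) / 2 - (m - (m + 1) * β) * ((q - 2) / 2)) =
      T ^ ((4 - q) / 2) * T ^ (-((m : ℝ) - (m + 1) * β) * ((q - 2) / 2)) := by
    rw [← Real.rpow_add hT]
    congr 1
    ring
  rw [e3]
  ring

lemma KT_nonneg (m : ℕ) {A L T β : ℝ} (hA : 0 ≤ A) (hL : 1 ≤ L) (hT : 0 < T) :
    0 ≤ KT m A m L T β := by
  unfold KT cL
  positivity

lemma block {m : ℕ} (μ : Measure (Fin m → ℝ)) (A L T β q : ℝ) (hA : 0 ≤ A)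
    (hL : 1 ≤ L) (hT : 1 ≤ T) (hμ : Frost μ A m) (hβ0 : 0 ≤ β) (hβ1 : β ≤ 1)
    (hq2 : 2 ≤ q) (hq4 : q ≤ 4) (ρ : ℝ) (hρ0 : 0 ≤ ρ) (hρ : μ univ ≤ ENNReal.ofReal ρ)
    {g : E (m + 1) → ℂ} (hg : BS 2 g) :
    II μ L q (ST T) g ≤
      ENNReal.ofReal (Cb m A L q * T ^ ((4 - q) / 2 - (m - (m + 1) * β) * ((q - 2) / 2))) *
      ((4 * J4 (m + 1) β) ^ ((q - 2) / 2) * ENNReal.ofReal (ρ ^ ((4 - q) / 2)) *
        ∫⁻ z, ‖g z‖ₑ ^ 2) := by
  have := hμ.locfin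
  have hT0 : 0 < T := by linarith
  set G : ℝ≥0∞ := ∫⁻ z, ‖g z‖ₑ ^ 2 with hG
  have ha : 0 ≤ (4 - q) / 2 := by linarith
  have hb : 0 ≤ (q - 2) / 2 := by linarith
  have h1 := II_interp μ L q hq2 hq4 (ST T) hg.meas (ENNReal.ofReal (2 * T) * ENNReal.ofReal ρ * G)
    (ENNReal.ofReal (KT m A m L T β) * (4 * J4 (m + 1) β) * G) ?_ ?_
  · refine h1.trans (le_of_eq ?_)
    rw [ENNReal.mul_rpow_of_nonneg _ _ ha, ENNReal.mul_rpow_of_nonneg _ _ ha,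
      ENNReal.mul_rpow_of_nonneg _ _ hb, ENNReal.mul_rpow_of_nonneg _ _ hb,
      ENNReal.ofReal_rpow_of_nonneg (by positivity) ha,
      ENNReal.ofReal_rpow_of_nonneg hρ0 ha,
      ENNReal.ofReal_rpow_of_nonneg (KT_nonneg m hA hL hT0) hb,
      ← Cb_eq m A L q β T hA hL hT0, ENNReal.ofReal_mul (by positivity)]
    have e1 : G = G ^ ((4 - q) / 2) * G ^ ((q - 2) / 2) := by
      rw [← ENNReal.rpow_add_of_nonneg _ _ ha hb]
      have : (4 - q) / 2 + (q - 2) / 2 = 1 := by ring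
      rw [this, ENNReal.rpow_one]
    conv_rhs => rw [e1]
    ring
  · refine (two_mass μ L ρ (ST T) hρ hg).trans ?_
    gcongr
    exact ST_vol T hT0.le
  · refine (block4s μ A m L T β hA hL hT hμ hβ0 hβ1 hg).trans ?_
    calc ENNReal.ofReal (KT m A m L T β) * J4 (m + 1) β * ∫⁻ z, ‖g z‖ₑ ^ 4 ≤
        ENNReal.ofReal (KT m A m L T β) * J4 (m + 1) β * (4 * G) := by
          gcongr
          exact four_two hg
      _ = _ := by ring

/-- the averaged estimate for measures of small mass -/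
theorem small_low (m : ℕ) (hm : 0 < m) (q : ℝ) (hq : 2 + 2 / (1 + (m : ℝ)) < q) (hq4 : q < 4)
    (L A : ℝ) (hL : 1 ≤ L) (hA : 0 ≤ A) :
    ∃ C : ℝ≥0∞, C < ⊤ ∧ ∀ μ : Measure (Fin m → ℝ), Frost μ A m → ∀ ρ : ℝ, 0 ≤ ρ → ρ ≤ 1 →
      μ univ ≤ ENNReal.ofReal ρ → ∀ g : E (m + 1) → ℂ, BS 2 g →
      II μ L q univ g ≤ C * ENNReal.ofReal (ρ ^ ((4 - q) / 2)) * ∫⁻ z, ‖g z‖ₑ ^ 2 := by
  have hm0 : (0 : ℝ) < m := by exact_mod_cast hm
  obtain ⟨β, hβ0, hβ1, hβ⟩ := choose_beta m m q hm0 hq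
  have hq2 : 2 ≤ q := by
    have : 0 < 2 / (1 + (m : ℝ)) := by positivity
    linarith
  set e : ℝ := (4 - q) / 2 - (m - (m + 1) * β) * ((q - 2) / 2) with he
  set V : ℝ≥0∞ := volume (cube (m + 1)) with hV
  have hVf : V < ⊤ := cube_vol (m + 1)
  set x : ℝ≥0∞ := ENNReal.ofReal ((2 : ℝ) ^ e) with hx
  have hx1 : x < 1 := by
    rw [hx, ENNReal.ofReal_lt_one]
    exact Real.rpow_lt_one_of_one_lt_of_neg (by norm_num) hβ
  have hCA : 0 ≤ Cb m A L q := Cb_nonneg m hA hL q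
  have hsum : ∑' j : ℕ, ENNReal.ofReal (Cb m A L q * ((2 : ℝ) ^ j) ^ e) =
      ENNReal.ofReal (Cb m A L q) * (1 - x)⁻¹ := by
    rw [← ENNReal.tsum_geometric, ← ENNReal.tsum_mul_left]
    congr 1
    ext j
    rw [ENNReal.ofReal_mul hCA, hx, ← ENNReal.ofReal_pow (by positivity)]
    congr 2
    rw [← Real.rpow_natCast, ← Real.rpow_mul (by norm_num), mul_comm, Real.rpow_mul (by norm_num),
      Real.rpow_natCast]
  refine ⟨(V * 2) ^ (q - 2) * 2 +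
    ENNReal.ofReal (Cb m A L q) * (1 - x)⁻¹ * (4 * J4 (m + 1) β) ^ ((q - 2) / 2), ?_, ?_⟩
  · apply ENNReal.add_lt_top.2 ⟨?_, ?_⟩
    · exact ENNReal.mul_lt_top (ENNReal.rpow_lt_top_of_nonneg (by linarith)
        (ENNReal.mul_lt_top hVf (by norm_num)).ne) (by norm_num)
    · refine ENNReal.mul_lt_top (ENNReal.mul_lt_top ENNReal.ofReal_lt_top ?_)
        (ENNReal.rpow_lt_top_of_nonneg (by linarith)
          (ENNReal.mul_lt_top (by norm_num) (J4_fin (m + 1) β hβ0)).ne)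
      rw [ENNReal.inv_lt_top]
      exact tsub_pos_of_lt hx1
  intro μ hμ ρ hρ0 hρ1 hρ g hg
  have := hμ.locfin
  set G : ℝ≥0∞ := ∫⁻ z, ‖g z‖ₑ ^ 2 with hG
  refine (II_univ μ L q hg.meas).trans ?_
  rw [add_mul, add_mul]
  apply add_le_add
  · refine (II_mono_q μ L q 2 (by norm_num) hq2 (Icc (-1) 1) hg).trans ?_
    have h2 : II μ L 2 (Icc (-1) 1) g ≤ ENNReal.ofReal 2 * ENNReal.ofReal ρ * G := by
      have h3 := two_mass μ L ρ (Icc (-1) 1) hρ hg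
      have h4 : II μ L 2 (Icc (-1) 1) g = ∫⁻ p, (∫⁻ x, ‖𝓕 (ch (sv p) g) x‖ₑ ^ 2)
        ∂((volume.restrict (Icc (-1) 1)).prod (μ.restrict (Icc (fun _ => -L) (fun _ => L)))) := by
        unfold II
        simp only [ENNReal.rpow_ofNat]
      rw [h4]
      refine h3.trans ?_
      gcongr
      rw [Real.volume_Icc]
      norm_num
    have h5 : ENNReal.ofReal ρ ≤ ENNReal.ofReal (ρ ^ ((4 - q) / 2)) := by
      apply ENNReal.ofReal_le_ofReal
      calc ρ = ρ ^ (1 : ℝ) := (Real.rpow_one ρ).symm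
        _ ≤ _ := by
            rcases hρ0.eq_or_lt with h0 | h0
            · rw [← h0, Real.zero_rpow (by norm_num), Real.zero_rpow (by linarith)]
            · exact Real.rpow_le_rpow_of_exponent_ge h0 hρ1 (by linarith)
    calc (V * ENNReal.ofReal 2) ^ (q - 2) * II μ L 2 (Icc (-1) 1) g ≤
        (V * ENNReal.ofReal 2) ^ (q - 2) *
          (ENNReal.ofReal 2 * ENNReal.ofReal (ρ ^ ((4 - q) / 2)) * G) := by
          gcongr
          refine h2.trans ?_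
          gcongr
      _ = _ := by
          have : ENNReal.ofReal 2 = 2 := by norm_num
          rw [this]
          ring
  · rw [← hsum, mul_assoc, mul_assoc, ← ENNReal.tsum_mul_right]
    apply ENNReal.tsum_le_tsum
    intro j
    refine (block μ A L (2 ^ j) β q hA hL (one_le_pow₀ (by norm_num)) hμ hβ0.le hβ1 hq2 hq4.le
      ρ hρ0 hρ hg).trans (le_of_eq ?_)
    rw [← he]
    ring

end Pool.Agent.Helper25.CL
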