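import Mathlib
import Pool.Agent.Helper25.CL.A
set_option autoImplicit false

/-! The averaged estimate over small boxes of dilates. -/

namespace Pool.Agent.Helper25.CL

open MeasureTheory Set Complex
open scoped ENNReal NNReal FourierTransform
open Pool.Agent.H153R4

/-- the coefficients of the paraboloid -/
abbrev on (n : ℕ) : Fin n → ℝ := fun _ => 1

lemma frost_vol (m : ℕ) : Frost (volume : Measure (Fin m → ℝ)) 1 m := by
  intro a r hr0 _
  rw [Real.volume_Icc_pi]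
  simp only [add_sub_cancel_left, Finset.prod_const, Finset.card_univ, Fintype.card_fin]
  rw [← ENNReal.ofReal_pow hr0.le, one_mul, Real.rpow_natCast]

lemma box_vol (m : ℕ) (r : ℝ) (hr : 0 ≤ r) :
    volume (Icc (fun _ : Fin m => (1 : ℝ)) (fun _ => 1 + r)) = ENNReal.ofReal (r ^ m) := by
  rw [Real.volume_Icc_pi]
  simp only [add_sub_cancel_left, Finset.prod_const, Finset.card_univ, Fintype.card_fin]
  rw [← ENNReal.ofReal_pow hr]

theorem avg_small (m : ℕ) (hm : 0 < m) (q : ℝ) (hq : 2 + 2 / (1 + (m : ℝ)) < q) (hq4 : q < 4) :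
    ∃ C : ℝ≥0∞, C < ⊤ ∧ ∀ r : ℝ, 0 < r → r ≤ 1 →
      ∀ g : (Fin (m + 1) → ℝ) → ℂ, Measurable g → (∀ ξ, ‖g ξ‖ ≤ 2) →
        (∀ ξ, ξ ∉ Icc (-1 : Fin (m + 1) → ℝ) 1 → g ξ = 0) →
        ∫⁻ l in Icc (fun _ : Fin m => (1 : ℝ)) (fun _ => 1 + r),
            (∫⁻ y : (Fin (m + 1) → ℝ) × ℝ, ‖ext0 (on (m + 1)) (fun ξ => g (dv l * ξ)) y‖ₑ ^ q) ≤
          C * ENNReal.ofReal ((r ^ m) ^ ((4 - q) / 2)) * ∫⁻ ξ, ‖g ξ‖ₑ ^ 2 := by
  have hA20 : 0 < (⌊2 * ((1 : ℝ) * (2 : ℝ) ^ 4)⌋₊ + 1 : ℝ) ^ m * 1 := by positivity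
  obtain ⟨C0, hC0, hmain⟩ := small_low m hm q hq hq4 1 _ le_rfl hA20.le
  have hq1 : 1 ≤ q := by
    have : 0 < 2 / (1 + (m : ℝ)) := by positivity
    linarith
  refine ⟨C0, hC0, fun r hr0 hr1 g hgm hgb hgs => ?_⟩
  set μ : Measure (Fin m → ℝ) := volume.restrict (Icc (fun _ => (1 : ℝ)) (fun _ => 1 + r)) with hμd
  have hμ' : Frost μ 1 m := (frost_vol m).restr _
  have := hμ'.locfin
  have hGmeas : Measurable fun z : E (m + 1) => g z.ofLp :=
    hgm.comp (emb_ofLp (m + 1)).measurable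
  have hGb : BS 2 fun z : E (m + 1) => g z.ofLp := by
    refine ⟨hGmeas, fun z => hgb _, fun z hz => hgs _ fun h => hz fun j => ?_⟩
    rw [abs_le]
    exact ⟨h.1 j, h.2 j⟩
  have hGint : ∫⁻ z : E (m + 1), ‖g z.ofLp‖ₑ ^ 2 = ∫⁻ ξ, ‖g ξ‖ₑ ^ 2 :=
    (PiLp.volume_preserving_ofLp (Fin (m + 1))).lintegral_comp (f := fun ξ => ‖g ξ‖ₑ ^ 2)
      (hgm.enorm.pow_const 2)
  have hGm : Measurable fun p : (Fin m → ℝ) × ℝ =>
      ∫⁻ x, ‖𝓕 (ch (sv (p.2, p.1)) (fun z : E (m + 1) => g z.ofLp)) x‖ₑ ^ q :=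
    (G_meas q hGmeas).comp measurable_swap
  have hFm : Measurable (FF q (fun z : E (m + 1) => g z.ofLp)) := hGm.lintegral_prod_right'
  have hsub : Icc (fun _ : Fin m => (1 : ℝ)) (fun _ => 1 + r) ⊆ Icc (fun _ => 1) (fun _ => (2 : ℝ)) := by
    apply Icc_subset_Icc le_rfl
    intro j
    simp only
    linarith
  have hμr : μ.restrict (Icc (fun _ => 1) (fun _ => (2 : ℝ))) = μ := by
    rw [hμd, Measure.restrict_restrict measurableSet_Icc, inter_eq_self_of_subset_right hsub]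
  set ν : Measure (Fin m → ℝ) :=
    Measure.map (rho (fun _ : Fin m => (1 : ℝ))) (μ.restrict (Icc (fun _ => 1) (fun _ => (2 : ℝ)))) with hν
  have hνF : Frost ν _ m := hμ'.push 2 1 (by norm_num) (fun _ => 1) (fun _ => one_ne_zero)
    (fun _ => by simp)
  have hνl := hνF.locfin
  have hνm : ν univ ≤ ENNReal.ofReal (r ^ m) := by
    rw [hν, Measure.map_apply (rho_meas (fun _ : Fin m => (1 : ℝ))) MeasurableSet.univ, preimage_univ, hμr, hμd,
      Measure.restrict_apply_univ, box_vol m r hr0.le]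
  have hmain' := hmain ν hνF (r ^ m) (by positivity) (pow_le_one₀ hr0.le hr1) hνm _ hGb
  rw [hGint] at hmain'
  calc ∫⁻ l in Icc (fun _ : Fin m => (1 : ℝ)) (fun _ => 1 + r),
            (∫⁻ y : (Fin (m + 1) → ℝ) × ℝ, ‖ext0 (on (m + 1)) (fun ξ => g (dv l * ξ)) y‖ₑ ^ q)
      ≤ ∫⁻ l in Icc (fun _ : Fin m => (1 : ℝ)) (fun _ => 1 + r),
          (Icc (fun _ => -1) (fun _ => 1)).indicator
            (FF q (fun z : E (m + 1) => g z.ofLp)) (rho (fun _ : Fin m => (1 : ℝ)) l) := by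
        apply setLIntegral_mono' measurableSet_Icc
        intro l hl
        have hl1 : ∀ j, 1 ≤ l j := fun j => hl.1 j
        have hmem : rho (fun _ : Fin m => (1 : ℝ)) l ∈ Icc (fun _ : Fin m => -1) (fun _ => 1) := by
          have : ∀ j, |rho (fun _ : Fin m => (1 : ℝ)) l j| ≤ 1 := by
            intro j
            unfold rho
            rw [abs_div, abs_of_nonneg (by positivity : (0 : ℝ) ≤ l j ^ 2), abs_one]
            rw [div_le_one (by have := hl1 j; positivity)]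
            have := hl1 j
            nlinarith
          exact ⟨fun j => (abs_le.1 (this j)).1, fun j => (abs_le.1 (this j)).2⟩
        rw [indicator_of_mem hmem]
        refine (key_le (on (m + 1)) (by simp) q hq1 l hl1 hgm).trans (le_of_eq ?_)
        simp only [inv_one, abs_one, ENNReal.ofReal_one, one_mul, div_one]
    _ = ∫⁻ x, (Icc (fun _ => -1) (fun _ => 1)).indicator
            (FF q (fun z : E (m + 1) => g z.ofLp)) x ∂ν := by
        rw [hν, lintegral_map (hFm.indicator measurableSet_Icc) (rho_meas (fun _ : Fin m => (1 : ℝ))), hμr]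
    _ = II ν 1 q univ (fun z : E (m + 1) => g z.ofLp) := by
        rw [lintegral_indicator measurableSet_Icc, II_eq ν 1 q univ hGmeas,
          Measure.restrict_univ]
        unfold FF HH
        rw [lintegral_lintegral_swap]
        exact hGm.aemeasurable
    _ ≤ _ := hmain'

end Pool.Agent.Helper25.CL
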