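import Mathlib
import Pool.Agent.Helper25.CL.B
set_option autoImplicit false

/-! Averages over small pieces of a group of dilations. -/

namespace Pool.Agent.Helper25.CL

open MeasureTheory Set Complex Filter Topology
open scoped ENNReal NNReal
open Pool.Agent.H153R4 (ext0 ext0_meas dv ph)
open Pool.Agent.W777.MF (tt LL LL_gt tt_bd tt_inv jensen ext0_scale lint_scale)

variable {m n : ℕ}

/-- bounded measurable functions supported in a cube -/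
structure Bd (g : (Fin n → ℝ) → ℂ) (M b : ℝ) : Prop where
  ms : Measurable g
  bd : ∀ ξ, ‖g ξ‖ ≤ M
  st : ∀ ξ, (∃ j, b < |ξ j|) → g ξ = 0

lemma Bd.off {g : (Fin n → ℝ) → ℂ} {M b : ℝ} (H : Bd g M b) (ξ : Fin n → ℝ)
    (h : ξ ∉ Icc (fun _ : Fin n => -b) (fun _ => b)) : g ξ = 0 := by
  apply H.st
  by_contra hc
  push Not at hc
  exact h ⟨fun j => (abs_le.1 (hc j)).1, fun j => (abs_le.1 (hc j)).2⟩

lemma Bd.int {g : (Fin n → ℝ) → ℂ} {M b : ℝ} (H : Bd g M b) : Integrable g := by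
  have h1 : Integrable ((Icc (fun _ : Fin n => -b) (fun _ => b)).indicator (fun _ => M)) := by
    rw [integrable_indicator_iff measurableSet_Icc]
    exact integrableOn_const isCompact_Icc.measure_lt_top.ne (by simp)
  refine h1.mono' H.ms.aestronglyMeasurable (ae_of_all _ fun p => ?_)
  by_cases hp : p ∈ Icc (fun _ : Fin n => -b) (fun _ => b)
  · rw [indicator_of_mem hp]
    exact H.bd p
  · rw [indicator_of_notMem hp, H.off p hp, norm_zero]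

lemma lint_diag (d : Fin n → ℝ) (hd : ∀ j, 0 < d j) (F : (Fin n → ℝ) → ℝ≥0∞) (hF : Measurable F) :
    ∫⁻ ξ, F (d * ξ) = ENNReal.ofReal (∏ j, d j)⁻¹ * ∫⁻ ξ, F ξ := by
  have hdet : (Matrix.diagonal d).det = ∏ j, d j := Matrix.det_diagonal
  have hpos : 0 < ∏ j, d j := Finset.prod_pos fun j _ => hd j
  have h := Real.smul_map_diagonal_volume_pi (D := d) (by rw [hdet]; exact hpos.ne')
  rw [hdet, abs_of_pos hpos] at h
  have hfun : (Matrix.toLin' (Matrix.diagonal d) : (Fin n → ℝ) → (Fin n → ℝ)) =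
      fun ξ => d * ξ := by
    ext ξ j
    rw [Matrix.toLin'_apply, Matrix.mulVec_diagonal]
    rfl
  rw [hfun] at h
  conv_rhs => rw [← h]
  rw [lintegral_smul_measure, lintegral_map hF (by fun_prop), smul_eq_mul, ← mul_assoc,
    ← ENNReal.ofReal_mul (by positivity), inv_mul_cancel₀ hpos.ne', ENNReal.ofReal_one, one_mul]

/-- the normalised measure on a box -/
noncomputable def pm (m : ℕ) (r : ℝ) : Measure (Fin m → ℝ) :=
  ENNReal.ofReal ((r ^ m)⁻¹) • volume.restrict (Icc (fun _ => (1 : ℝ)) (fun _ => 1 + r))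

lemma pm_prob (m : ℕ) (r : ℝ) (hr : 0 < r) : IsProbabilityMeasure (pm m r) := by
  refine ⟨?_⟩
  unfold pm
  rw [Measure.smul_apply, Measure.restrict_apply_univ, box_vol m r hr.le, smul_eq_mul,
    ← ENNReal.ofReal_mul (by positivity), inv_mul_cancel₀ (by positivity), ENNReal.ofReal_one]

lemma pm_ae (m : ℕ) (r : ℝ) : ∀ᵐ l ∂(pm m r), l ∈ Icc (fun _ : Fin m => (1 : ℝ)) (fun _ => 1 + r) :=
  Measure.ae_smul_measure (ae_restrict_mem measurableSet_Icc) _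

/-- the element of the group -/
noncomputable def vv (a : Fin (m + 1) → ℝ) (l : Fin m → ℝ) : Fin (m + 1) → ℝ :=
  Real.exp (tt a l) • dv l

lemma vv_meas (a : Fin (m + 1) → ℝ) : Measurable (vv a) := by
  have h1 : Measurable (tt a) := by
    unfold tt
    refine Measurable.div_const ?_ _
    refine Measurable.neg ?_
    refine Finset.measurable_sum _ fun j _ => ?_
    exact (Real.measurable_log.comp (measurable_pi_apply j)).const_mul _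
  have h2 : Measurable (dv : (Fin m → ℝ) → Fin (m + 1) → ℝ) := by
    rw [measurable_pi_iff]
    intro j
    refine Fin.cases ?_ (fun i => ?_) j
    · simp [dv]
    · simpa [dv] using measurable_pi_apply i
  exact (Real.measurable_exp.comp h1).smul h2

/-- the size of the boxes -/
noncomputable def ra (a : Fin (m + 1) → ℝ) : ℝ := min 1 (LL a - 1)

lemma ra_pos (a : Fin (m + 1) → ℝ) : 0 < ra a :=
  lt_min one_pos (by have := LL_gt a; linarith)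

lemma ra_le (a : Fin (m + 1) → ℝ) : ra a ≤ 1 := min_le_left _ _

lemma ra_sub (a : Fin (m + 1) → ℝ) {r : ℝ} (hr : r ≤ ra a) {l : Fin m → ℝ}
    (hl : l ∈ Icc (fun _ : Fin m => (1 : ℝ)) (fun _ => 1 + r)) :
    l ∈ Icc (fun _ : Fin m => (1 : ℝ)) (fun _ => LL a) := by
  refine ⟨hl.1, fun j => (hl.2 j).trans ?_⟩
  have := min_le_right 1 (LL a - 1)
  simp only
  unfold ra at hr
  linarith

lemma vv_bd {a : Fin (m + 1) → ℝ} {l : Fin m → ℝ}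
    (hl : l ∈ Icc (fun _ : Fin m => (1 : ℝ)) (fun _ => LL a)) (j : Fin (m + 1)) :
    1 / 2 ≤ vv a l j ∧ vv a l j ≤ 2 := by
  obtain ⟨h1, h2, h3⟩ := tt_bd hl
  unfold vv
  refine Fin.cases ?_ (fun i => ?_) j
  · simp only [Pi.smul_apply, dv, Fin.cons_zero, smul_eq_mul, mul_one]
    exact ⟨h2, h1⟩
  · simp only [Pi.smul_apply, dv, Fin.cons_succ, smul_eq_mul]
    refine ⟨?_, h3 i⟩
    have h4 : (1 : ℝ) ≤ l i := hl.1 i
    calc (1 : ℝ) / 2 ≤ Real.exp (tt a l) * 1 := by rw [mul_one]; exact h2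
      _ ≤ _ := by gcongr

lemma Bd.dil {g : (Fin n → ℝ) → ℂ} {M b : ℝ} (H : Bd g M b) (hb : 0 ≤ b) {v : Fin n → ℝ}
    (hv : ∀ j, 1 / 2 ≤ v j) : Bd (fun ξ => g (v * ξ)) M (2 * b) := by
  refine ⟨H.ms.comp (by fun_prop), fun ξ => H.bd _, fun ξ hξ => H.st _ ?_⟩
  obtain ⟨j, hj⟩ := hξ
  refine ⟨j, ?_⟩
  rw [Pi.mul_apply, abs_mul, abs_of_pos (by linarith [hv j])]
  have := hv j
  nlinarith [abs_nonneg (ξ j)]

/-- weights -/
structure Wt (w : (Fin m → ℝ) → ℂ) : Prop where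
  ms : Measurable w
  bd : ∀ l, ‖w l‖ ≤ 1

/-- the averages -/
noncomputable def QQ (a : Fin (m + 1) → ℝ) (w : (Fin m → ℝ) → ℂ) (r : ℝ)
    (g : (Fin (m + 1) → ℝ) → ℂ) (ξ : Fin (m + 1) → ℝ) : ℂ :=
  ∫ l, w l * g (vv a l * ξ) ∂(pm m r)

lemma jm {a : Fin (m + 1) → ℝ} {g : (Fin (m + 1) → ℝ) → ℂ} (hg : Measurable g) :
    Measurable fun p : (Fin (m + 1) → ℝ) × (Fin m → ℝ) => g (vv a p.2 * p.1) :=
  hg.comp (((vv_meas a).comp measurable_snd).mul measurable_fst)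

lemma jw {a : Fin (m + 1) → ℝ} {w : (Fin m → ℝ) → ℂ} (hw : Wt w)
    {g : (Fin (m + 1) → ℝ) → ℂ} (hg : Measurable g) :
    Measurable fun p : (Fin (m + 1) → ℝ) × (Fin m → ℝ) => w p.2 * g (vv a p.2 * p.1) :=
  (hw.ms.comp measurable_snd).mul (jm hg)

lemma Bd.nn {g : (Fin n → ℝ) → ℂ} {M b : ℝ} (H : Bd g M b) : 0 ≤ M :=
  (norm_nonneg _).trans (H.bd 0)

lemma Wt.mul_bd {w : (Fin m → ℝ) → ℂ} (hw : Wt w) {g : (Fin n → ℝ) → ℂ} {M b : ℝ}
    (H : Bd g M b) (l : Fin m → ℝ) (ξ : Fin n → ℝ) : ‖w l * g ξ‖ ≤ M := by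
  rw [norm_mul]
  calc ‖w l‖ * ‖g ξ‖ ≤ 1 * M := mul_le_mul (hw.bd l) (H.bd ξ) (norm_nonneg _) zero_le_one
    _ = M := one_mul M

lemma QQ_Bd {a : Fin (m + 1) → ℝ} {w : (Fin m → ℝ) → ℂ} (hw : Wt w) {r : ℝ} (hr0 : 0 < r)
    (hr : r ≤ ra a) {g : (Fin (m + 1) → ℝ) → ℂ} {M b : ℝ} (H : Bd g M b) (hb : 0 ≤ b) :
    Bd (QQ a w r g) M (2 * b) := by
  have := pm_prob m r hr0
  refine ⟨?_, fun ξ => ?_, fun ξ hξ => ?_⟩
  · exact ((jw (a := a) hw H.ms).stronglyMeasurable.integral_prod_right (ν := pm m r)).measurable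
  · refine (norm_integral_le_of_norm_le_const (ae_of_all _ fun l => hw.mul_bd H l _)).trans ?_
    simp
  · unfold QQ
    have h1 : ∀ᵐ l ∂(pm m r), w l * g (vv a l * ξ) = 0 := by
      filter_upwards [pm_ae m r] with l hl
      have := (H.dil hb fun j => (vv_bd (ra_sub a hr hl) j).1).st ξ hξ
      rw [this, mul_zero]
    rw [integral_congr_ae h1, integral_zero]

lemma QQ_comm {a : Fin (m + 1) → ℝ} {w : (Fin m → ℝ) → ℂ} (hw : Wt w) {r s : ℝ} (hr0 : 0 < r)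
    (hs0 : 0 < s) {g : (Fin (m + 1) → ℝ) → ℂ} {M b : ℝ} (H : Bd g M b) :
    QQ a w r (QQ a w s g) = QQ a w s (QQ a w r g) := by
  have := pm_prob m r hr0
  have := pm_prob m s hs0
  funext ξ
  unfold QQ
  have h1 : Integrable (Function.uncurry fun (l : Fin m → ℝ) (l' : Fin m → ℝ) =>
      w l * (w l' * g (vv a l' * (vv a l * ξ)))) ((pm m r).prod (pm m s)) := by
    refine Integrable.mono' (integrable_const M) ?_ (ae_of_all _ fun p => ?_)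
    · refine Measurable.aestronglyMeasurable ?_
      refine (hw.ms.comp measurable_fst).mul ((hw.ms.comp measurable_snd).mul (H.ms.comp ?_))
      exact ((vv_meas a).comp measurable_snd).mul
        (((vv_meas a).comp measurable_fst).mul measurable_const)
    · change ‖w p.1 * (w p.2 * g _)‖ ≤ M
      rw [norm_mul]
      calc ‖w p.1‖ * ‖w p.2 * g (vv a p.2 * (vv a p.1 * ξ))‖ ≤ 1 * M :=
            mul_le_mul (hw.bd _) (hw.mul_bd H _ _) (norm_nonneg _) zero_le_one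
        _ = M := one_mul M
  have h2 : ∀ l, w l * ∫ l', w l' * g (vv a l' * (vv a l * ξ)) ∂(pm m s) =
      ∫ l', w l * (w l' * g (vv a l' * (vv a l * ξ))) ∂(pm m s) := fun l =>
    (integral_const_mul _ _).symm
  simp only [h2]
  rw [integral_integral_swap h1]
  congr 1
  ext l'
  rw [← integral_const_mul]
  congr 1
  ext l
  rw [mul_left_comm (w l), mul_left_comm (vv a l')]

lemma sq_avg {μ : Measure (Fin m → ℝ)} [IsProbabilityMeasure μ]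
    (F : (Fin (m + 1) → ℝ) → (Fin m → ℝ) → ℂ)
    (hF : Measurable fun p : (Fin (m + 1) → ℝ) × (Fin m → ℝ) => F p.1 p.2) (ε : ℝ≥0∞)
    (h : ∀ᵐ l ∂μ, ∫⁻ ξ, ‖F ξ l‖ₑ ^ 2 ≤ ε) : ∫⁻ ξ, ‖∫ l, F ξ l ∂μ‖ₑ ^ 2 ≤ ε := by
  have h1 : ∀ ξ, ‖∫ l, F ξ l ∂μ‖ₑ ^ 2 ≤ ∫⁻ l, ‖F ξ l‖ₑ ^ 2 ∂μ := by
    intro ξ
    have h2 := jensen μ (fun _ => 1) (fun l => ‖F ξ l‖ₑ) measurable_const
      (hF.comp measurable_prodMk_left).enorm 2 (by norm_num)
    simp only [one_mul, lintegral_const, measure_univ, ENNReal.one_rpow,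
      ENNReal.rpow_ofNat] at h2
    refine (pow_le_pow_left' (enorm_integral_le_lintegral_enorm _) 2).trans h2
  calc ∫⁻ ξ, ‖∫ l, F ξ l ∂μ‖ₑ ^ 2 ≤ ∫⁻ ξ, ∫⁻ l, ‖F ξ l‖ₑ ^ 2 ∂μ := lintegral_mono h1
    _ = ∫⁻ l, (∫⁻ ξ, ‖F ξ l‖ₑ ^ 2) ∂μ := by
        rw [lintegral_lintegral_swap]
        exact (hF.enorm.pow_const 2).aemeasurable
    _ ≤ ∫⁻ _, ε ∂μ := lintegral_mono_ae h
    _ = ε := by simp

lemma dil_two {v : Fin n → ℝ} (hv : ∀ j, 1 / 2 ≤ v j) {g : (Fin n → ℝ) → ℂ} (hg : Measurable g) :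
    ∫⁻ ξ, ‖g (v * ξ)‖ₑ ^ 2 ≤ 2 ^ n * ∫⁻ ξ, ‖g ξ‖ₑ ^ 2 := by
  have hv0 : ∀ j, 0 < v j := fun j => by linarith [hv j]
  rw [lint_diag v hv0 (fun ξ => ‖g ξ‖ₑ ^ 2) (hg.enorm.pow_const 2)]
  gcongr
  have h1 : (1 / 2 : ℝ) ^ n ≤ ∏ j, v j := by
    calc (1 / 2 : ℝ) ^ n = ∏ _j : Fin n, (1 / 2 : ℝ) := by simp
      _ ≤ _ := Finset.prod_le_prod (fun _ _ => by norm_num) fun j _ => hv j
  calc ENNReal.ofReal (∏ j, v j)⁻¹ ≤ ENNReal.ofReal ((1 / 2 : ℝ) ^ n)⁻¹ := by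
        apply ENNReal.ofReal_le_ofReal
        gcongr
    _ = 2 ^ n := by
        have : ((1 / 2 : ℝ) ^ n)⁻¹ = 2 ^ n := by
          rw [one_div, inv_pow, inv_inv]
        rw [this, ENNReal.ofReal_pow (by norm_num)]
        norm_num

lemma QQ_two {a : Fin (m + 1) → ℝ} {w : (Fin m → ℝ) → ℂ} (hw : Wt w) {r : ℝ} (hr0 : 0 < r)
    (hr : r ≤ ra a) {g : (Fin (m + 1) → ℝ) → ℂ} (hg : Measurable g) :
    ∫⁻ ξ, ‖QQ a w r g ξ‖ₑ ^ 2 ≤ 2 ^ (m + 1) * ∫⁻ ξ, ‖g ξ‖ₑ ^ 2 := by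
  have := pm_prob m r hr0
  unfold QQ
  refine sq_avg (fun ξ l => w l * g (vv a l * ξ)) (jw hw hg) _ ?_
  filter_upwards [pm_ae m r] with l hl
  refine le_trans (lintegral_mono fun ξ => ?_)
    (dil_two (fun j => (vv_bd (ra_sub a hr hl) j).1) hg)
  simp only
  apply pow_le_pow_left'
  rw [enorm_mul]
  calc ‖w l‖ₑ * ‖g (vv a l * ξ)‖ₑ ≤ 1 * ‖g (vv a l * ξ)‖ₑ := by
        gcongr
        rw [← ofReal_norm, ← ENNReal.ofReal_one]
        exact ENNReal.ofReal_le_ofReal (hw.bd l)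
    _ = _ := one_mul _

lemma QQ_i {a : Fin (m + 1) → ℝ} {w : (Fin m → ℝ) → ℂ} (hw : Wt w) {r : ℝ} (hr0 : 0 < r)
    {g : (Fin (m + 1) → ℝ) → ℂ} {M b : ℝ} (H : Bd g M b) (ξ : Fin (m + 1) → ℝ) :
    Integrable (fun l => w l * g (vv a l * ξ)) (pm m r) := by
  have := pm_prob m r hr0
  exact Integrable.mono' (integrable_const M)
    (hw.ms.mul (H.ms.comp ((vv_meas a).mul measurable_const))).aestronglyMeasurable
    (ae_of_all _ fun l => hw.mul_bd H l _)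

lemma QQ_sub {a : Fin (m + 1) → ℝ} {w : (Fin m → ℝ) → ℂ} (hw : Wt w) {r : ℝ} (hr0 : 0 < r)
    {g h : (Fin (m + 1) → ℝ) → ℂ} {M b M' b' : ℝ} (H : Bd g M b) (H' : Bd h M' b')
    (ξ : Fin (m + 1) → ℝ) :
    QQ a w r (fun ξ => g ξ - h ξ) ξ = QQ a w r g ξ - QQ a w r h ξ := by
  unfold QQ
  rw [← integral_sub (QQ_i hw hr0 H ξ) (QQ_i hw hr0 H' ξ)]
  congr 1
  ext l
  ring

lemma QQ_err {a : Fin (m + 1) → ℝ} {w : (Fin m → ℝ) → ℂ} (hw : Wt w) {r : ℝ} (hr0 : 0 < r)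
    {g : (Fin (m + 1) → ℝ) → ℂ} {M b : ℝ} (H : Bd g M b) (ε : ℝ≥0∞)
    (hε : ∀ l ∈ Icc (fun _ : Fin m => (1 : ℝ)) (fun _ => 1 + r),
      ∫⁻ ξ, ‖w l * g (vv a l * ξ) - g ξ‖ₑ ^ 2 ≤ ε) :
    ∫⁻ ξ, ‖QQ a w r g ξ - g ξ‖ₑ ^ 2 ≤ ε := by
  have := pm_prob m r hr0
  have h1 : ∀ ξ, QQ a w r g ξ - g ξ = ∫ l, (w l * g (vv a l * ξ) - g ξ) ∂(pm m r) := by
    intro ξ
    unfold QQ
    rw [integral_sub (QQ_i hw hr0 H ξ) (integrable_const _)]
    simp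
  simp only [h1]
  refine sq_avg (fun ξ l => w l * g (vv a l * ξ) - g ξ)
    ((jw hw H.ms).sub (H.ms.comp measurable_fst)) _ ?_
  filter_upwards [pm_ae m r] with l hl
  exact hε l hl

end Pool.Agent.Helper25.CL
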