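import Mathlib
import Pool.Agent.Helper25.CL.C
set_option autoImplicit false

/-! The extension operator on averages. -/

namespace Pool.Agent.Helper25.CL

open MeasureTheory Set Complex Filter Topology
open scoped ENNReal NNReal
open Pool.Agent.H153R4 (ext0 ext0_meas dv ph)
open Pool.Agent.W777.MF (tt LL LL_gt tt_bd tt_inv jensen ext0_scale lint_scale norm_e)

variable {m n : ℕ}

lemma e_meas (c : Fin n → ℝ) (y : (Fin n → ℝ) × ℝ) :
    Measurable fun ξ : Fin n → ℝ => cexp (2 * Real.pi * I * (ph c ξ y : ℂ)) := by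
  unfold ph
  fun_prop

lemma ext0_QQ {a : Fin (m + 1) → ℝ} {w : (Fin m → ℝ) → ℂ} (hw : Wt w) {r : ℝ} (hr0 : 0 < r)
    (hr : r ≤ ra a) {g : (Fin (m + 1) → ℝ) → ℂ} {M b : ℝ} (H : Bd g M b) (hb : 0 ≤ b)
    (c : Fin (m + 1) → ℝ) (y : (Fin (m + 1) → ℝ) × ℝ) :
    ext0 c (QQ a w r g) y = ∫ l, w l * ext0 c (fun ξ => g (vv a l * ξ)) y ∂(pm m r) := by
  have := pm_prob m r hr0
  unfold ext0 QQ
  have h1 : Integrable (Function.uncurry fun (ξ : Fin (m + 1) → ℝ) (l : Fin m → ℝ) =>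
      (w l * g (vv a l * ξ)) * cexp (2 * Real.pi * I * (ph c ξ y : ℂ)))
      (volume.prod (pm m r)) := by
    have h2 : Integrable (fun ξ : Fin (m + 1) → ℝ =>
        (Icc (fun _ : Fin (m + 1) => -(2 * b)) (fun _ => 2 * b)).indicator (fun _ => M) ξ) := by
      rw [integrable_indicator_iff measurableSet_Icc]
      exact integrableOn_const isCompact_Icc.measure_lt_top.ne (by simp)
    refine Integrable.mono' (h2.comp_fst (pm m r)) ?_ ?_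
    · refine Measurable.aestronglyMeasurable ?_
      exact (jw hw H.ms).mul ((e_meas c y).comp measurable_fst)
    · have h3 : ∀ᵐ p : (Fin (m + 1) → ℝ) × (Fin m → ℝ) ∂(volume.prod (pm m r)),
          p.2 ∈ Icc (fun _ : Fin m => (1 : ℝ)) (fun _ => 1 + r) :=
        Measure.quasiMeasurePreserving_snd.ae (pm_ae m r)
      filter_upwards [h3] with p hp
      have H' := H.dil hb fun j => (vv_bd (ra_sub a hr hp) j).1
      have h4 : ‖(w p.2 * g (vv a p.2 * p.1)) * cexp (2 * Real.pi * I * (ph c p.1 y : ℂ))‖ =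
          ‖w p.2 * g (vv a p.2 * p.1)‖ := by
        rw [norm_mul, norm_e, mul_one]
      change ‖(w p.2 * g (vv a p.2 * p.1)) * cexp (2 * Real.pi * I * (ph c p.1 y : ℂ))‖ ≤ _
      rw [h4]
      by_cases hξ : p.1 ∈ Icc (fun _ : Fin (m + 1) => -(2 * b)) (fun _ => 2 * b)
      · rw [indicator_of_mem hξ]
        exact hw.mul_bd H _ _
      · rw [indicator_of_notMem hξ]
        have := H'.off p.1 hξ
        rw [this, mul_zero, norm_zero]
  have h5 : ∀ l, w l * ∫ ξ, g (vv a l * ξ) * cexp (2 * Real.pi * I * (ph c ξ y : ℂ)) =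
      ∫ ξ, (w l * g (vv a l * ξ)) * cexp (2 * Real.pi * I * (ph c ξ y : ℂ)) := by
    intro l
    rw [← integral_const_mul]
    congr 1
    ext ξ
    ring
  simp only [h5]
  rw [← integral_integral_swap h1]
  congr 1
  ext ξ
  rw [integral_mul_const]

/-- isotropic scalings -/
lemma iso (c d : Fin n → ℝ) {g : (Fin n → ℝ) → ℂ} (hg : Measurable g) (κ : ℝ) (h1 : 1 / 2 ≤ κ)
    (h2 : κ ≤ 2) (q : ℝ) (hq : 0 ≤ q) :
    ∫⁻ y, ‖ext0 c (fun ξ => g ((κ • d) * ξ)) y‖ₑ ^ q ≤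
      (2 ^ n) ^ q * 2 ^ (n + 2) * ∫⁻ y, ‖ext0 c (fun ξ => g (d * ξ)) y‖ₑ ^ q := by
  have hκ : 0 < κ := by linarith
  have hκ' : 0 < κ⁻¹ := inv_pos.2 hκ
  have hκ2 : κ⁻¹ ≤ 2 := by
    rw [inv_le_comm₀ hκ (by norm_num)]
    linarith
  have hκ3 : 1 / 2 ≤ κ⁻¹ := by
    rw [le_inv_comm₀ (by norm_num) hκ]
    simpa using h2
  have e1 : ∀ y, ext0 c (fun ξ => g ((κ • d) * ξ)) y = ((κ⁻¹ ^ n : ℝ) : ℂ) *
      ext0 c (fun η => g (d * η)) (κ⁻¹ • y.1, κ⁻¹ ^ 2 * y.2) := by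
    intro y
    rw [ext0_scale c κ⁻¹ hκ' _ y]
    congr 2
    ext η
    congr 1
    ext j
    simp only [Pi.mul_apply, Pi.smul_apply, smul_eq_mul]
    field_simp
  have hK : Measurable fun y => ‖ext0 c (fun η => g (d * η)) y‖ₑ ^ q :=
    (ext0_meas c (hg.comp (by fun_prop))).enorm.pow_const q
  have h3 : ‖((κ⁻¹ ^ n : ℝ) : ℂ)‖ₑ ≤ 2 ^ n := by
    rw [← ofReal_norm, Complex.norm_real, Real.norm_of_nonneg (by positivity)]
    calc ENNReal.ofReal (κ⁻¹ ^ n) ≤ ENNReal.ofReal (2 ^ n) := by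
          apply ENNReal.ofReal_le_ofReal
          gcongr
      _ = 2 ^ n := by
          rw [ENNReal.ofReal_pow (by norm_num)]
          norm_num
  have h4 : ENNReal.ofReal ((κ⁻¹ ^ (n + 2))⁻¹) ≤ 2 ^ (n + 2) := by
    calc ENNReal.ofReal ((κ⁻¹ ^ (n + 2))⁻¹) ≤ ENNReal.ofReal (((1 / 2 : ℝ) ^ (n + 2))⁻¹) := by
          apply ENNReal.ofReal_le_ofReal
          gcongr
      _ = 2 ^ (n + 2) := by
          have : ((1 / 2 : ℝ) ^ (n + 2))⁻¹ = 2 ^ (n + 2) := by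
            rw [one_div, inv_pow, inv_inv]
          rw [this, ENNReal.ofReal_pow (by norm_num)]
          norm_num
  calc ∫⁻ y, ‖ext0 c (fun ξ => g ((κ • d) * ξ)) y‖ₑ ^ q =
      ∫⁻ y : (Fin n → ℝ) × ℝ, ‖((κ⁻¹ ^ n : ℝ) : ℂ)‖ₑ ^ q *
        ‖ext0 c (fun η => g (d * η)) (κ⁻¹ • y.1, κ⁻¹ ^ 2 * y.2)‖ₑ ^ q := by
        apply lintegral_congr
        intro y
        rw [e1 y, enorm_mul, ENNReal.mul_rpow_of_nonneg _ _ hq]
    _ = ‖((κ⁻¹ ^ n : ℝ) : ℂ)‖ₑ ^ q * (ENNReal.ofReal ((κ⁻¹ ^ (n + 2))⁻¹) *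
          ∫⁻ y, ‖ext0 c (fun η => g (d * η)) y‖ₑ ^ q) := by
        rw [lintegral_const_mul' _ _ (ENNReal.rpow_ne_top_of_nonneg hq (by simp)),
          lint_scale κ⁻¹ hκ' (fun y => ‖ext0 c (fun η => g (d * η)) y‖ₑ ^ q) hK]
    _ ≤ (2 ^ n) ^ q * (2 ^ (n + 2) * ∫⁻ y, ‖ext0 c (fun η => g (d * η)) y‖ₑ ^ q) := by
        gcongr
    _ = _ := by rw [mul_assoc]

/-- the estimate for averages over small boxes -/
theorem key (m : ℕ) (hm : 0 < m) (q : ℝ) (hq : 2 + 2 / (1 + (m : ℝ)) < q) (hq4 : q < 4)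
    (a : Fin (m + 1) → ℝ) :
    ∃ C : ℝ≥0∞, C < ⊤ ∧ ∀ w : (Fin m → ℝ) → ℂ, Wt w → ∀ r : ℝ, 0 < r → r ≤ ra a →
      ∀ g : (Fin (m + 1) → ℝ) → ℂ, Bd g 2 1 →
        ∫⁻ y, ‖ext0 (on (m + 1)) (QQ a w r g) y‖ₑ ^ q ≤
          C * ENNReal.ofReal ((r ^ m) ^ (-((q - 2) / 2))) * ∫⁻ ξ, ‖g ξ‖ₑ ^ 2 := by
  obtain ⟨C, hC, h⟩ := avg_small m hm q hq hq4
  have hq1 : 1 ≤ q := by
    have : 0 < 2 / (1 + (m : ℝ)) := by positivity
    linarith
  have hD : ((2 : ℝ≥0∞) ^ (m + 1)) ^ q * 2 ^ (m + 1 + 2) < ⊤ := by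
    refine ENNReal.mul_lt_top (ENNReal.rpow_lt_top_of_nonneg (by linarith) ?_) ?_
    · exact ENNReal.pow_ne_top (by norm_num)
    · exact ENNReal.pow_lt_top (by norm_num)
  refine ⟨((2 : ℝ≥0∞) ^ (m + 1)) ^ q * 2 ^ (m + 1 + 2) * C, ENNReal.mul_lt_top hD hC,
    fun w hw r hr0 hr g hg => ?_⟩
  have := pm_prob m r hr0
  set D : ℝ≥0∞ := ((2 : ℝ≥0∞) ^ (m + 1)) ^ q * 2 ^ (m + 1 + 2) with hDd
  have hgm := hg.ms
  have hjm : Measurable fun p : ((Fin (m + 1) → ℝ) × ℝ) × (Fin m → ℝ) =>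
      ext0 (on (m + 1)) (fun ξ => g (vv a p.2 * ξ)) p.1 := by
    unfold ext0
    have h1 : StronglyMeasurable fun w : (((Fin (m + 1) → ℝ) × ℝ) × (Fin m → ℝ)) ×
        (Fin (m + 1) → ℝ) => g (vv a w.1.2 * w.2) *
          cexp (2 * Real.pi * I * (ph (on (m + 1)) w.2 w.1.1 : ℂ)) := by
      apply Measurable.stronglyMeasurable
      refine Measurable.mul ?_ ?_
      · refine hgm.comp (Measurable.mul ?_ measurable_snd)
        exact (vv_meas a).comp (measurable_snd.comp measurable_fst)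
      · unfold ph
        fun_prop
    exact (h1.integral_prod_right (ν := volume)).measurable
  have hstep : ∀ y, ‖ext0 (on (m + 1)) (QQ a w r g) y‖ₑ ^ q ≤
      ∫⁻ l, ‖ext0 (on (m + 1)) (fun ξ => g (vv a l * ξ)) y‖ₑ ^ q ∂(pm m r) := by
    intro y
    rw [ext0_QQ hw hr0 hr hg zero_le_one]
    have h2 := jensen (pm m r) (fun _ => 1)
      (fun l => ‖ext0 (on (m + 1)) (fun ξ => g (vv a l * ξ)) y‖ₑ) measurable_const
      (hjm.comp measurable_prodMk_left).enorm q hq1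
    simp only [one_mul, lintegral_const, measure_univ, ENNReal.one_rpow] at h2
    have h3 : ‖∫ l, w l * ext0 (on (m + 1)) (fun ξ => g (vv a l * ξ)) y ∂(pm m r)‖ₑ ≤
        ∫⁻ l, ‖ext0 (on (m + 1)) (fun ξ => g (vv a l * ξ)) y‖ₑ ∂(pm m r) := by
      refine (enorm_integral_le_lintegral_enorm _).trans (lintegral_mono fun l => ?_)
      simp only
      rw [enorm_mul]
      calc ‖w l‖ₑ * ‖ext0 (on (m + 1)) (fun ξ => g (vv a l * ξ)) y‖ₑ ≤
          1 * ‖ext0 (on (m + 1)) (fun ξ => g (vv a l * ξ)) y‖ₑ := by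
            gcongr
            rw [← ofReal_norm, ← ENNReal.ofReal_one]
            exact ENNReal.ofReal_le_ofReal (hw.bd l)
        _ = _ := one_mul _
    exact (ENNReal.rpow_le_rpow h3 (by linarith)).trans h2
  have hr1 : r ≤ 1 := hr.trans (ra_le a)
  calc ∫⁻ y, ‖ext0 (on (m + 1)) (QQ a w r g) y‖ₑ ^ q ≤
      ∫⁻ y, (∫⁻ l, ‖ext0 (on (m + 1)) (fun ξ => g (vv a l * ξ)) y‖ₑ ^ q ∂(pm m r)) :=
        lintegral_mono hstep
    _ = ∫⁻ l, (∫⁻ y, ‖ext0 (on (m + 1)) (fun ξ => g (vv a l * ξ)) y‖ₑ ^ q) ∂(pm m r) := by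
        rw [lintegral_lintegral_swap]
        exact (hjm.enorm.pow_const q).aemeasurable
    _ ≤ ∫⁻ l, D * (∫⁻ y, ‖ext0 (on (m + 1)) (fun ξ => g (dv l * ξ)) y‖ₑ ^ q) ∂(pm m r) := by
        apply lintegral_mono_ae
        filter_upwards [pm_ae m r] with l hl
        obtain ⟨h1, h2, _⟩ := tt_bd (ra_sub a hr hl)
        exact iso (on (m + 1)) (dv l) hgm (Real.exp (tt a l)) h2 h1 q (by linarith)
    _ = D * (ENNReal.ofReal ((r ^ m)⁻¹) *
          ∫⁻ l in Icc (fun _ : Fin m => (1 : ℝ)) (fun _ => 1 + r),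
            (∫⁻ y, ‖ext0 (on (m + 1)) (fun ξ => g (dv l * ξ)) y‖ₑ ^ q)) := by
        rw [lintegral_const_mul' _ _ hD.ne]
        unfold pm
        rw [lintegral_smul_measure, smul_eq_mul]
    _ ≤ D * (ENNReal.ofReal ((r ^ m)⁻¹) *
          (C * ENNReal.ofReal ((r ^ m) ^ ((4 - q) / 2)) * ∫⁻ ξ, ‖g ξ‖ₑ ^ 2)) := by
        gcongr
        exact h r hr0 hr1 g hgm hg.bd fun ξ hξ => hg.off ξ hξ
    _ = D * C * (ENNReal.ofReal ((r ^ m)⁻¹) * ENNReal.ofReal ((r ^ m) ^ ((4 - q) / 2))) *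
          ∫⁻ ξ, ‖g ξ‖ₑ ^ 2 := by ring
    _ = _ := by
        rw [← ENNReal.ofReal_mul (by positivity)]
        congr 3
        rw [← Real.rpow_neg_one, ← Real.rpow_add (by positivity)]
        congr 1
        ring

end Pool.Agent.Helper25.CL
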