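import Mathlib
import Pool.Agent.Helper25.CL.D
set_option autoImplicit false

/-! The telescoping series. -/

namespace Pool.Agent.Helper25.CL

open MeasureTheory Set Complex Filter Topology
open scoped ENNReal NNReal
open Pool.Agent.H153R4 (ext0 ext0_meas dv ph)
open Pool.Agent.W777.MF (norm_e)

variable {m n : ℕ}

lemma Bd.mono {g : (Fin n → ℝ) → ℂ} {M b M' b' : ℝ} (H : Bd g M b) (hM : M ≤ M') (hb : b ≤ b') :
    Bd g M' b' :=
  ⟨H.ms, fun ξ => (H.bd ξ).trans hM, fun ξ ⟨j, hj⟩ => H.st ξ ⟨j, lt_of_le_of_lt hb hj⟩⟩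

lemma Bd.sub {g h : (Fin n → ℝ) → ℂ} {M M' b : ℝ} (H : Bd g M b) (H' : Bd h M' b) :
    Bd (fun ξ => g ξ - h ξ) (M + M') b :=
  ⟨H.ms.sub H'.ms, fun ξ => (norm_sub_le _ _).trans (add_le_add (H.bd ξ) (H'.bd ξ)),
    fun ξ hξ => by simp only [H.st ξ hξ, H'.st ξ hξ, sub_self]⟩

lemma ext0_intb {g : (Fin n → ℝ) → ℂ} {M b : ℝ} (H : Bd g M b) (c : Fin n → ℝ)
    (y : (Fin n → ℝ) × ℝ) :
    Integrable fun ξ => g ξ * cexp (2 * Real.pi * I * (ph c ξ y : ℂ)) := by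
  refine H.int.norm.mono' (H.ms.mul (e_meas c y)).aestronglyMeasurable (ae_of_all _ fun ξ => ?_)
  rw [norm_mul, norm_e, mul_one]

lemma ext0_add {g h : (Fin n → ℝ) → ℂ} {M M' b b' : ℝ} (H : Bd g M b) (H' : Bd h M' b')
    (c : Fin n → ℝ) (y : (Fin n → ℝ) × ℝ) :
    ext0 c (fun ξ => g ξ + h ξ) y = ext0 c g y + ext0 c h y := by
  unfold ext0
  rw [← integral_add (ext0_intb H c y) (ext0_intb H' c y)]
  congr 1
  ext ξ
  ring

lemma sq2 (x y : ℂ) : ‖x - y‖ₑ ^ 2 ≤ 2 * ‖x‖ₑ ^ 2 + 2 * ‖y‖ₑ ^ 2 := by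
  have h1 : ‖x - y‖ₑ ≤ ‖x‖ₑ + ‖y‖ₑ := enorm_sub_le
  calc ‖x - y‖ₑ ^ 2 ≤ (‖x‖ₑ + ‖y‖ₑ) ^ 2 := pow_le_pow_left' h1 2
    _ ≤ 2 * ‖x‖ₑ ^ 2 + 2 * ‖y‖ₑ ^ 2 := by
        have h2 := ENNReal.rpow_add_le_mul_rpow_add_rpow (‖x‖ₑ) (‖y‖ₑ) (p := 2) (by norm_num)
        simp only [ENNReal.rpow_ofNat] at h2
        refine h2.trans (le_of_eq ?_)
        have : (2 : ℝ≥0∞) ^ ((2 : ℝ) - 1) = 2 := by
          norm_num
        rw [this]
        ring

lemma sq2' (x y : ℂ) : ‖x + y‖ₑ ^ 2 ≤ 2 * ‖x‖ₑ ^ 2 + 2 * ‖y‖ₑ ^ 2 := by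
  have := sq2 x (-y)
  rwa [sub_neg_eq_add, enorm_neg] at this

/-- the difference of two averages -/
lemma diff_two {a : Fin (m + 1) → ℝ} {w : (Fin m → ℝ) → ℂ} (hw : Wt w) {r s : ℝ} (hr0 : 0 < r)
    (hs0 : 0 < s) {f : (Fin (m + 1) → ℝ) → ℂ} {M b : ℝ} (H : Bd f M b) (ε : ℝ≥0∞)
    (h1 : ∀ l ∈ Icc (fun _ : Fin m => (1 : ℝ)) (fun _ => 1 + r),
      ∫⁻ ξ, ‖w l * f (vv a l * ξ) - f ξ‖ₑ ^ 2 ≤ ε)
    (h2 : ∀ l ∈ Icc (fun _ : Fin m => (1 : ℝ)) (fun _ => 1 + s),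
      ∫⁻ ξ, ‖w l * f (vv a l * ξ) - f ξ‖ₑ ^ 2 ≤ ε) (hr : r ≤ ra a) (hs : s ≤ ra a) (hb : 0 ≤ b) :
    ∫⁻ ξ, ‖QQ a w s f ξ - QQ a w r f ξ‖ₑ ^ 2 ≤ 4 * ε := by
  have e1 := QQ_err hw hr0 H ε h1
  have e2 := QQ_err hw hs0 H ε h2
  have m1 := (QQ_Bd hw hr0 hr H hb).ms
  have m2 := (QQ_Bd hw hs0 hs H hb).ms
  have s1 : Measurable fun ξ => QQ a w s f ξ - f ξ := m2.sub H.ms
  have s2 : Measurable fun ξ => QQ a w r f ξ - f ξ := m1.sub H.ms
  calc ∫⁻ ξ, ‖QQ a w s f ξ - QQ a w r f ξ‖ₑ ^ 2 ≤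
      ∫⁻ ξ, (2 * ‖QQ a w s f ξ - f ξ‖ₑ ^ 2 + 2 * ‖QQ a w r f ξ - f ξ‖ₑ ^ 2) := by
        apply lintegral_mono
        intro ξ
        simp only
        have : QQ a w s f ξ - QQ a w r f ξ = (QQ a w s f ξ - f ξ) - (QQ a w r f ξ - f ξ) := by ring
        rw [this]
        exact sq2 _ _
    _ = 2 * (∫⁻ ξ, ‖QQ a w s f ξ - f ξ‖ₑ ^ 2) + 2 * ∫⁻ ξ, ‖QQ a w r f ξ - f ξ‖ₑ ^ 2 := by
        rw [lintegral_add_left ((s1.enorm.pow_const 2).const_mul 2),
          lintegral_const_mul _ (s1.enorm.pow_const 2),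
          lintegral_const_mul _ (s2.enorm.pow_const 2)]
    _ ≤ 2 * ε + 2 * ε := by gcongr
    _ = 4 * ε := by ring

/-- the iterated average -/
lemma twice_err {a : Fin (m + 1) → ℝ} {w : (Fin m → ℝ) → ℂ} (hw : Wt w) {r : ℝ} (hr0 : 0 < r)
    {f : (Fin (m + 1) → ℝ) → ℂ} {M b : ℝ} (H : Bd f M b) (ε : ℝ≥0∞)
    (h1 : ∀ l ∈ Icc (fun _ : Fin m => (1 : ℝ)) (fun _ => 1 + r),
      ∫⁻ ξ, ‖w l * f (vv a l * ξ) - f ξ‖ₑ ^ 2 ≤ ε) (hr : r ≤ ra a) (hb : 0 ≤ b) :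
    ∫⁻ ξ, ‖QQ a w r (QQ a w r f) ξ - f ξ‖ₑ ^ 2 ≤ (2 * 2 ^ (m + 1) + 2) * ε := by
  have e1 := QQ_err hw hr0 H ε h1
  have B1 := QQ_Bd hw hr0 hr H hb
  have m1 := B1.ms
  have s1 : Measurable fun ξ => QQ a w r f ξ - f ξ := m1.sub H.ms
  have e2 := QQ_two (a := a) hw hr0 hr s1
  have B2 := QQ_Bd hw hr0 hr B1 (by positivity)
  have m3 : Measurable (QQ a w r fun ξ => QQ a w r f ξ - f ξ) := by
    have := (QQ_Bd hw hr0 hr (B1.sub (H.mono le_rfl (by linarith : b ≤ 2 * b))) (by positivity)).ms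
    exact this
  calc ∫⁻ ξ, ‖QQ a w r (QQ a w r f) ξ - f ξ‖ₑ ^ 2 ≤
      ∫⁻ ξ, (2 * ‖QQ a w r (fun ξ => QQ a w r f ξ - f ξ) ξ‖ₑ ^ 2 + 2 * ‖QQ a w r f ξ - f ξ‖ₑ ^ 2) := by
        apply lintegral_mono
        intro ξ
        simp only
        have h2 : QQ a w r (QQ a w r f) ξ - f ξ =
            QQ a w r (fun ξ => QQ a w r f ξ - f ξ) ξ + (QQ a w r f ξ - f ξ) := by
          rw [QQ_sub hw hr0 B1 H]
          ring
        rw [h2]
        exact sq2' _ _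
    _ = 2 * (∫⁻ ξ, ‖QQ a w r (fun ξ => QQ a w r f ξ - f ξ) ξ‖ₑ ^ 2) +
          2 * ∫⁻ ξ, ‖QQ a w r f ξ - f ξ‖ₑ ^ 2 := by
        rw [lintegral_add_left ((m3.enorm.pow_const 2).const_mul 2),
          lintegral_const_mul _ (m3.enorm.pow_const 2),
          lintegral_const_mul _ (s1.enorm.pow_const 2)]
    _ ≤ 2 * (2 ^ (m + 1) * ε) + 2 * ε := by
        gcongr
        exact e2.trans (by gcongr)
    _ = _ := by ring

/-- the first moment is bounded by the second one -/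
lemma one_two {g : (Fin n → ℝ) → ℂ} {M b : ℝ} (H : Bd g M b) :
    ∫⁻ ξ, ‖g ξ‖ₑ ≤ (volume (Icc (fun _ : Fin n => -b) (fun _ => b))) ^ (1 / 2 : ℝ) *
      (∫⁻ ξ, ‖g ξ‖ₑ ^ 2) ^ (1 / 2 : ℝ) := by
  set S := Icc (fun _ : Fin n => -b) (fun _ => b) with hS
  have h1 : ∫⁻ ξ, ‖g ξ‖ₑ = ∫⁻ ξ, (S.indicator (fun _ => (1 : ℝ≥0∞)) * fun ξ => ‖g ξ‖ₑ) ξ := by
    apply lintegral_congr
    intro ξ
    by_cases hξ : ξ ∈ S
    · simp only [Pi.mul_apply, indicator_of_mem hξ, one_mul]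
    · simp only [Pi.mul_apply, indicator_of_notMem hξ, zero_mul, H.off ξ hξ, enorm_zero]
  rw [h1]
  refine (ENNReal.lintegral_mul_le_Lp_mul_Lq volume Real.HolderConjugate.two_two
    (measurable_const.indicator measurableSet_Icc).aemeasurable H.ms.enorm.aemeasurable).trans
    (le_of_eq ?_)
  congr 2
  · have : ∀ ξ, S.indicator (fun _ => (1 : ℝ≥0∞)) ξ ^ (2 : ℝ) = S.indicator (fun _ => 1) ξ := by
      intro ξ
      by_cases hξ : ξ ∈ S
      · simp only [indicator_of_mem hξ, ENNReal.one_rpow]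
      · simp only [indicator_of_notMem hξ]
        norm_num
    refine (lintegral_congr this).trans ?_
    rw [lintegral_indicator measurableSet_Icc, setLIntegral_one]
  · refine lintegral_congr fun ξ => ?_
    exact ENNReal.rpow_ofNat _ 2

lemma ext0_sub_le {g h : (Fin n → ℝ) → ℂ} {M M' b : ℝ} (H : Bd g M b) (H' : Bd h M' b)
    (c : Fin n → ℝ) (y : (Fin n → ℝ) × ℝ) :
    ‖ext0 c g y - ext0 c h y‖ₑ ≤ ∫⁻ ξ, ‖g ξ - h ξ‖ₑ := by
  unfold ext0
  rw [← integral_sub (ext0_intb H c y) (ext0_intb H' c y)]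
  refine (enorm_integral_le_lintegral_enorm _).trans (le_of_eq ?_)
  apply lintegral_congr
  intro ξ
  rw [← sub_mul, enorm_mul, ← ofReal_norm (cexp _), norm_e, ENNReal.ofReal_one, mul_one]

/-- the `L^q` norm of the extension -/
noncomputable def NN (m : ℕ) (q : ℝ) (g : (Fin (m + 1) → ℝ) → ℂ) : ℝ≥0∞ :=
  eLpNorm (ext0 (on (m + 1)) g) (ENNReal.ofReal q) volume

lemma NN_eq (m : ℕ) (q : ℝ) (hq : 0 < q) (g : (Fin (m + 1) → ℝ) → ℂ) :
    NN m q g = (∫⁻ y, ‖ext0 (on (m + 1)) g y‖ₑ ^ q) ^ (1 / q) := by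
  unfold NN
  rw [eLpNorm_eq_lintegral_rpow_enorm_toReal (by simpa using hq) ENNReal.ofReal_ne_top,
    ENNReal.toReal_ofReal hq.le]

/-- **the telescoping series** -/
theorem tele (m : ℕ) (hm : 0 < m) (q : ℝ) (hq : 2 + 2 / (1 + (m : ℝ)) < q) (hq4 : q < 4)
    (a : Fin (m + 1) → ℝ) (σ : ℝ) (hσ : m * ((q - 2) / 2) < 2 * σ) :
    ∃ C : ℝ≥0∞, C < ⊤ ∧ ∀ (w : (Fin m → ℝ) → ℂ) (f : (Fin (m + 1) → ℝ) → ℂ) (A : ℝ≥0∞), A ≠ ⊤ →
      Wt w → Bd f 1 (1 / 4) →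
      (∀ r : ℝ, 0 < r → r ≤ ra a → ∀ l ∈ Icc (fun _ : Fin m => (1 : ℝ)) (fun _ => 1 + r),
        ∫⁻ ξ, ‖w l * f (vv a l * ξ) - f ξ‖ₑ ^ 2 ≤ A * ENNReal.ofReal (r ^ (2 * σ))) →
      NN m q f ≤ C * (1 + A ^ (1 / q)) := by
  obtain ⟨C, hC, key⟩ := key m hm q hq hq4 a
  have hm0 : (0 : ℝ) < m := by exact_mod_cast hm
  have hq2 : 2 < q := lt_trans (by
    have : 0 < 2 / (1 + (m : ℝ)) := by positivity
    linarith) hq
  have hq0 : 0 < q := by linarith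
  set δ : ℝ := 2 * σ - m * ((q - 2) / 2) with hδ
  have hδ0 : 0 < δ := by linarith
  have hσ0 : 0 < σ := by
    have : 0 < m * ((q - 2) / 2) := mul_pos hm0 (by linarith)
    linarith
  set ρ : ℕ → ℝ := fun j => ra a * (1 / 2) ^ j with hρ
  have hρ0 : ∀ j, 0 < ρ j := fun j => mul_pos (ra_pos a) (by positivity)
  have hρ1 : ∀ j, ρ j ≤ ra a := fun j =>
    mul_le_of_le_one_right (ra_pos a).le (pow_le_one₀ (by norm_num) (by norm_num))
  have hρs : ∀ j, ρ (j + 1) = ρ j / 2 := by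
    intro j
    simp only [hρ, pow_succ]
    ring
  set V : ℝ≥0∞ := volume (Icc (fun _ : Fin (m + 1) => (-1 : ℝ)) (fun _ => 1)) with hV
  have hVt : V < ⊤ := isCompact_Icc.measure_lt_top
  set x : ℝ≥0∞ := ENNReal.ofReal ((1 / 2 : ℝ) ^ (δ / q)) with hx
  have hx1 : x < 1 := by
    rw [hx, ENNReal.ofReal_lt_one]
    exact Real.rpow_lt_one (by norm_num) (by norm_num) (by positivity)
  set K0 : ℝ≥0∞ := (C * ENNReal.ofReal ((ra a ^ m) ^ (-((q - 2) / 2))) * V) ^ (1 / q) with hK0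
  set K1 : ℝ≥0∞ := (4 * C * ENNReal.ofReal (2 ^ (2 * σ))) ^ (1 / q) with hK1
  have hK0t : K0 < ⊤ := ENNReal.rpow_lt_top_of_nonneg (by positivity)
    (ENNReal.mul_lt_top (ENNReal.mul_lt_top hC ENNReal.ofReal_lt_top) hVt).ne
  have hK1t : K1 < ⊤ := ENNReal.rpow_lt_top_of_nonneg (by positivity)
    (ENNReal.mul_lt_top (ENNReal.mul_lt_top (by norm_num) hC) ENNReal.ofReal_lt_top).ne
  have hit : (1 - x)⁻¹ < ⊤ := by
    rw [ENNReal.inv_lt_top]
    exact tsub_pos_of_lt hx1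
  refine ⟨K0 + 2 * K1 * (1 - x)⁻¹, ENNReal.add_lt_top.2 ⟨hK0t,
    ENNReal.mul_lt_top (ENNReal.mul_lt_top (by norm_num) hK1t) hit⟩, ?_⟩
  intro w f A hA hw hf hreg
  have B1 : ∀ j, Bd (QQ a w (ρ j) f) 1 (1 / 2) := by
    intro j
    have := QQ_Bd hw (hρ0 j) (hρ1 j) hf (by norm_num)
    exact this.mono le_rfl (by norm_num)
  have B2 : ∀ i j, Bd (QQ a w (ρ i) (QQ a w (ρ j) f)) 1 1 := by
    intro i j
    have := QQ_Bd hw (hρ0 i) (hρ1 i) (B1 j) (by norm_num)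
    exact this.mono le_rfl (by norm_num)
  set F : ℕ → (Fin (m + 1) → ℝ) → ℂ := fun j => QQ a w (ρ j) (QQ a w (ρ j) f) with hF
  set h : ℕ → (Fin (m + 1) → ℝ) → ℂ := fun j ξ => QQ a w (ρ (j + 1)) f ξ - QQ a w (ρ j) f ξ with hh
  have Bh : ∀ j, Bd (h j) 2 1 := by
    intro j
    exact ((B1 (j + 1)).sub (B1 j)).mono (by norm_num) (by norm_num)
  have hreg' : ∀ i j : ℕ, j ≤ i → ∀ l ∈ Icc (fun _ : Fin m => (1 : ℝ)) (fun _ => 1 + ρ i),
      ∫⁻ ξ, ‖w l * f (vv a l * ξ) - f ξ‖ₑ ^ 2 ≤ A * ENNReal.ofReal (ρ j ^ (2 * σ)) := by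
    intro i j hij l hl
    refine (hreg (ρ i) (hρ0 i) (hρ1 i) l hl).trans ?_
    gcongr
    · exact (hρ0 i).le
    · simp only [hρ]
      refine mul_le_mul_of_nonneg_left ?_ (ra_pos a).le
      exact pow_le_pow_of_le_one (by norm_num) (by norm_num) hij
  have h2 : ∀ j, ∫⁻ ξ, ‖h j ξ‖ₑ ^ 2 ≤ 4 * (A * ENNReal.ofReal (ρ j ^ (2 * σ))) := by
    intro j
    exact diff_two hw (hρ0 j) (hρ0 (j + 1)) hf _ (hreg' j j le_rfl) (hreg' (j + 1) j (Nat.le_succ j))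
      (hρ1 j) (hρ1 (j + 1)) (by norm_num)
  -- one average of a difference
  have h3 : ∀ i j : ℕ, i = j ∨ i = j + 1 → NN m q (QQ a w (ρ i) (h j)) ≤ K1 * A ^ (1 / q) * x ^ j := by
    intro i j hij
    rw [NN_eq m q hq0]
    have e1 : ∫⁻ y, ‖ext0 (on (m + 1)) (QQ a w (ρ i) (h j)) y‖ₑ ^ q ≤
        (4 * C * ENNReal.ofReal (2 ^ (2 * σ))) * A * ENNReal.ofReal (((1 / 2 : ℝ) ^ δ) ^ j) := by
      calc ∫⁻ y, ‖ext0 (on (m + 1)) (QQ a w (ρ i) (h j)) y‖ₑ ^ q ≤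
          C * ENNReal.ofReal ((ρ i ^ m) ^ (-((q - 2) / 2))) * ∫⁻ ξ, ‖h j ξ‖ₑ ^ 2 :=
            key w hw (ρ i) (hρ0 i) (hρ1 i) (h j) (Bh j)
        _ ≤ C * ENNReal.ofReal ((ρ i ^ m) ^ (-((q - 2) / 2))) *
              (4 * (A * ENNReal.ofReal (ρ j ^ (2 * σ)))) := by
            gcongr
            exact h2 j
        _ = 4 * C * A * (ENNReal.ofReal ((ρ i ^ m) ^ (-((q - 2) / 2))) *
              ENNReal.ofReal (ρ j ^ (2 * σ))) := by ring
        _ ≤ 4 * C * A * (ENNReal.ofReal (2 ^ (2 * σ)) * ENNReal.ofReal (((1 / 2 : ℝ) ^ δ) ^ j)) := by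
            refine mul_le_mul_right ?_ _
            rw [← ENNReal.ofReal_mul (by have := hρ0 i; positivity),
              ← ENNReal.ofReal_mul (by positivity)]
            apply ENNReal.ofReal_le_ofReal
            have f1 : ρ j ≤ 2 * ρ i := by
              rcases hij with rfl | rfl
              · linarith [hρ0 i]
              · rw [hρs j]
                linarith
            have f2 : ρ j ^ (2 * σ) ≤ 2 ^ (2 * σ) * ρ i ^ (2 * σ) := by
              rw [← Real.mul_rpow (by norm_num) (hρ0 i).le]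
              exact Real.rpow_le_rpow (hρ0 j).le f1 (by positivity)
            have f3 : (ρ i ^ m) ^ (-((q - 2) / 2)) * ρ i ^ (2 * σ) = ρ i ^ δ := by
              rw [← Real.rpow_natCast, ← Real.rpow_mul (hρ0 i).le, ← Real.rpow_add (hρ0 i)]
              congr 1
              rw [hδ]
              ring
            have f4 : ρ i ^ δ ≤ ((1 / 2 : ℝ) ^ δ) ^ j := by
              have g1 : ρ i ≤ (1 / 2) ^ j := by
                have g2 : ρ i ≤ ρ j := by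
                  rcases hij with rfl | rfl
                  · exact le_rfl
                  · rw [hρs j]
                    linarith [hρ0 j]
                refine g2.trans ?_
                simp only [hρ]
                exact mul_le_of_le_one_left (by positivity) (ra_le a)
              calc ρ i ^ δ ≤ ((1 / 2 : ℝ) ^ j) ^ δ := Real.rpow_le_rpow (hρ0 i).le g1 hδ0.le
                _ = ((1 / 2 : ℝ) ^ δ) ^ j := by
                    rw [← Real.rpow_natCast, ← Real.rpow_natCast, ← Real.rpow_mul (by norm_num),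
                      ← Real.rpow_mul (by norm_num), mul_comm]
            calc (ρ i ^ m) ^ (-((q - 2) / 2)) * ρ j ^ (2 * σ) ≤
                (ρ i ^ m) ^ (-((q - 2) / 2)) * (2 ^ (2 * σ) * ρ i ^ (2 * σ)) := by
                  have := hρ0 i
                  gcongr
              _ = 2 ^ (2 * σ) * ((ρ i ^ m) ^ (-((q - 2) / 2)) * ρ i ^ (2 * σ)) := by ring
              _ ≤ _ := by
                  rw [f3]
                  gcongr
        _ = _ := by ring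
    refine (ENNReal.rpow_le_rpow e1 (by positivity)).trans (le_of_eq ?_)
    rw [ENNReal.mul_rpow_of_nonneg _ _ (by positivity),
      ENNReal.mul_rpow_of_nonneg _ _ (by positivity), ← hK1]
    congr 1
    rw [ENNReal.ofReal_rpow_of_nonneg (by positivity) (by positivity), hx,
      ← ENNReal.ofReal_pow (by positivity)]
    congr 1
    rw [← Real.rpow_natCast, ← Real.rpow_natCast, ← Real.rpow_mul (by positivity),
      ← Real.rpow_mul (by positivity), ← Real.rpow_mul (by positivity)]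
    congr 1
    ring
  have hqe : 1 ≤ ENNReal.ofReal q := by
    rw [ENNReal.one_le_ofReal]
    linarith
  have hms : ∀ {g : (Fin (m + 1) → ℝ) → ℂ}, Measurable g →
      AEStronglyMeasurable (ext0 (on (m + 1)) g) volume := fun hg =>
    (ext0_meas _ hg).aestronglyMeasurable
  have BQh : ∀ i j, Bd (QQ a w (ρ i) (h j)) 2 2 := fun i j => by
    have := QQ_Bd hw (hρ0 i) (hρ1 i) (Bh j) (by norm_num)
    exact this.mono le_rfl (by norm_num)
  -- one step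
  have h4 : ∀ j, NN m q (F (j + 1)) ≤ NN m q (F j) + 2 * (K1 * A ^ (1 / q) * x ^ j) := by
    intro j
    have e1 : ext0 (on (m + 1)) (F (j + 1)) = ext0 (on (m + 1)) (F j) +
        (ext0 (on (m + 1)) (QQ a w (ρ (j + 1)) (h j)) + ext0 (on (m + 1)) (QQ a w (ρ j) (h j))) := by
      funext y
      simp only [Pi.add_apply]
      rw [← ext0_add (BQh (j + 1) j) (BQh j j)]
      have B3 : Bd (fun ξ => QQ a w (ρ (j + 1)) (h j) ξ + QQ a w (ρ j) (h j) ξ) 4 2 := by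
        refine ⟨(BQh (j + 1) j).ms.add (BQh j j).ms, fun ξ => ?_, fun ξ hξ => ?_⟩
        · refine (norm_add_le _ _).trans ?_
          linarith [(BQh (j + 1) j).bd ξ, (BQh j j).bd ξ]
        · simp only [(BQh (j + 1) j).st ξ hξ, (BQh j j).st ξ hξ, add_zero]
      rw [← ext0_add (B2 j j) B3]
      congr 1
      funext ξ
      simp only [hF, hh]
      rw [QQ_sub hw (hρ0 (j + 1)) (B1 (j + 1)) (B1 j), QQ_sub hw (hρ0 j) (B1 (j + 1)) (B1 j),
        QQ_comm hw (hρ0 (j + 1)) (hρ0 j) hf]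
      ring
    unfold NN
    rw [e1]
    refine (eLpNorm_add_le (hms (B2 j j).ms) ((hms (BQh (j + 1) j).ms).add (hms (BQh j j).ms))
      hqe).trans ?_
    gcongr
    refine (eLpNorm_add_le (hms (BQh (j + 1) j).ms) (hms (BQh j j).ms) hqe).trans ?_
    rw [two_mul]
    exact add_le_add (h3 (j + 1) j (Or.inr rfl)) (h3 j j (Or.inl rfl))
  have h5 : NN m q (F 0) ≤ K0 := by
    rw [NN_eq m q hq0, hK0]
    apply ENNReal.rpow_le_rpow _ (by positivity)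
    have e1 := key w hw (ρ 0) (hρ0 0) (hρ1 0) (QQ a w (ρ 0) f) ((B1 0).mono (by norm_num) (by norm_num))
    refine e1.trans ?_
    have e2 : ρ 0 = ra a := by simp [hρ]
    have e3 : ∫⁻ ξ, ‖QQ a w (ρ 0) f ξ‖ₑ ^ 2 ≤ V := by
      calc ∫⁻ ξ, ‖QQ a w (ρ 0) f ξ‖ₑ ^ 2 ≤ ∫⁻ ξ,
          (Icc (fun _ : Fin (m + 1) => (-1 : ℝ)) (fun _ => 1)).indicator (fun _ => 1) ξ := by
            apply lintegral_mono
            intro ξ
            simp only
            by_cases hξ : ξ ∈ Icc (fun _ : Fin (m + 1) => (-1 : ℝ)) (fun _ => 1)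
            · rw [indicator_of_mem hξ]
              have := (B1 0).bd ξ
              have e4 : ‖QQ a w (ρ 0) f ξ‖ₑ ≤ 1 := by
                rw [← ofReal_norm, ← ENNReal.ofReal_one]
                exact ENNReal.ofReal_le_ofReal this
              exact (pow_le_pow_left' e4 2).trans (by norm_num)
            · rw [((B1 0).mono le_rfl (by norm_num : (1 / 2 : ℝ) ≤ 1)).off ξ hξ]
              simp
        _ = V := by rw [lintegral_indicator measurableSet_Icc, setLIntegral_one]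
    rw [e2] at e3 ⊢
    gcongr
  have h6 : ∀ J, NN m q (F J) ≤ K0 + 2 * (K1 * A ^ (1 / q)) * ∑ j ∈ Finset.range J, x ^ j := by
    intro J
    induction J with
    | zero => simpa using h5
    | succ J ih =>
      refine (h4 J).trans ?_
      rw [Finset.sum_range_succ]
      calc NN m q (F J) + 2 * (K1 * A ^ (1 / q) * x ^ J) ≤
          K0 + 2 * (K1 * A ^ (1 / q)) * (∑ j ∈ Finset.range J, x ^ j) +
            2 * (K1 * A ^ (1 / q) * x ^ J) := by gcongr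
        _ = _ := by ring
  have h7 : ∀ J, NN m q (F J) ≤ K0 + 2 * (K1 * A ^ (1 / q)) * (1 - x)⁻¹ := by
    intro J
    refine (h6 J).trans ?_
    gcongr
    rw [← ENNReal.tsum_geometric]
    exact ENNReal.sum_le_tsum _
  -- the limit
  have h8 : ∀ y, Tendsto (fun J => ext0 (on (m + 1)) (F J) y) atTop
      (𝓝 (ext0 (on (m + 1)) f y)) := by
    intro y
    rw [tendsto_iff_enorm_sub_tendsto_zero]
    have e1 : ∀ J, ‖ext0 (on (m + 1)) (F J) y - ext0 (on (m + 1)) f y‖ₑ ≤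
        (volume (Icc (fun _ : Fin (m + 1) => (-1 : ℝ)) (fun _ => 1))) ^ (1 / 2 : ℝ) *
          ((2 * 2 ^ (m + 1) + 2) * (A * ENNReal.ofReal (ρ J ^ (2 * σ)))) ^ (1 / 2 : ℝ) := by
      intro J
      have Bf1 : Bd f 1 1 := hf.mono le_rfl (by norm_num)
      refine (ext0_sub_le (B2 J J) Bf1 _ y).trans ?_
      refine (one_two ((B2 J J).sub Bf1)).trans ?_
      gcongr
      exact twice_err hw (hρ0 J) hf _ (hreg' J J le_rfl) (hρ1 J) (by norm_num)
    have e2 : Tendsto (fun J => V ^ (1 / 2 : ℝ) *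
        ((2 * 2 ^ (m + 1) + 2) * (A * ENNReal.ofReal (ρ J ^ (2 * σ)))) ^ (1 / 2 : ℝ)) atTop
        (𝓝 0) := by
      have g1 : Tendsto ρ atTop (𝓝 0) := by
        have := (tendsto_pow_atTop_nhds_zero_of_lt_one (by norm_num : (0 : ℝ) ≤ 1 / 2)
          (by norm_num)).const_mul (ra a)
        rwa [mul_zero] at this
      have g2 : Tendsto (fun J => ρ J ^ (2 * σ)) atTop (𝓝 0) := by
        have := g1.rpow_const (p := 2 * σ) (Or.inr (by positivity))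
        rwa [Real.zero_rpow (by positivity)] at this
      have g3 : Tendsto (fun J => ENNReal.ofReal (ρ J ^ (2 * σ))) atTop (𝓝 0) := by
        have := ENNReal.tendsto_ofReal g2
        rwa [ENNReal.ofReal_zero] at this
      have g4 : Tendsto (fun J => (2 * 2 ^ (m + 1) + 2 : ℝ≥0∞) *
          (A * ENNReal.ofReal (ρ J ^ (2 * σ)))) atTop (𝓝 0) := by
        have h1 := ENNReal.Tendsto.const_mul g3 (Or.inr hA)
        rw [mul_zero] at h1
        have h2 := ENNReal.Tendsto.const_mul (a := (2 * 2 ^ (m + 1) + 2 : ℝ≥0∞)) h1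
          (Or.inr (by
            refine ENNReal.add_ne_top.2 ⟨ENNReal.mul_ne_top (by norm_num)
              (ENNReal.pow_ne_top (by norm_num)), by norm_num⟩))
        rwa [mul_zero] at h2
      have g5 := (ENNReal.continuous_rpow_const (y := (1 / 2 : ℝ))).continuousAt.tendsto.comp g4
      rw [ENNReal.zero_rpow_of_pos (by norm_num)] at g5
      have g6 := ENNReal.Tendsto.const_mul (a := V ^ (1 / 2 : ℝ)) g5
        (Or.inr (ENNReal.rpow_ne_top_of_nonneg (by norm_num) hVt.ne))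
      rwa [mul_zero] at g6
    exact tendsto_of_tendsto_of_tendsto_of_le_of_le tendsto_const_nhds e2 (fun _ => bot_le) e1
  have h9 : NN m q f ≤ K0 + 2 * (K1 * A ^ (1 / q)) * (1 - x)⁻¹ := by
    unfold NN
    refine (Lp.eLpNorm_lim_le_liminf_eLpNorm (fun J => hms (B2 J J).ms) _ (ae_of_all _ h8)).trans ?_
    refine liminf_le_of_le (by isBoundedDefault) ?_
    intro b hb
    obtain ⟨J, hJ⟩ := hb.exists
    exact hJ.trans (h7 J)
  refine h9.trans ?_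
  calc K0 + 2 * (K1 * A ^ (1 / q)) * (1 - x)⁻¹ ≤
      (K0 + 2 * (K1 * A ^ (1 / q)) * (1 - x)⁻¹) + (K0 * A ^ (1 / q) + 2 * K1 * (1 - x)⁻¹) :=
        le_self_add
    _ = _ := by ring

end Pool.Agent.Helper25.CL
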