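import Mathlib
import Pool.Agent.Helper25.CL.E
set_option autoImplicit false

/-! Translations, scaling and all exponents. -/

namespace Pool.Agent.Helper25.CL

open MeasureTheory Set Complex Filter Topology
open scoped ENNReal NNReal
open Pool.Agent.H153R4 (ext0 ext0_meas dv ph)
open Pool.Agent.W777.MF (tt PP PP_nonneg LL LL_gt tt_bd tt_inv ext0_scale lint_scale norm_e e_add)

variable {m n : ℕ}

lemma log_vv {a : Fin (m + 1) → ℝ} {r : ℝ} (hr0 : 0 ≤ r) {l : Fin m → ℝ}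
    (hl : l ∈ Icc (fun _ : Fin m => (1 : ℝ)) (fun _ => 1 + r)) (j : Fin (m + 1)) :
    |Real.log (vv a l j)| ≤ (PP a + 1) * r := by
  have h1 : ∀ i, 0 ≤ Real.log (l i) ∧ Real.log (l i) ≤ r := by
    intro i
    have g1 : 1 ≤ l i := hl.1 i
    have g2 : l i ≤ 1 + r := hl.2 i
    refine ⟨Real.log_nonneg g1, ?_⟩
    have := Real.log_le_sub_one_of_pos (show 0 < l i by linarith)
    linarith
  have h2 : |tt a l| ≤ PP a * r := by
    unfold tt
    rw [abs_div, abs_neg]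
    have h1 : |∑ j, a j.succ * Real.log (l j)| ≤ ∑ j : Fin m, |a j.succ| * r := by
      refine (Finset.abs_sum_le_sum_abs _ _).trans (Finset.sum_le_sum fun j _ => ?_)
      rw [abs_mul, abs_of_nonneg (h1 j).1]
      exact mul_le_mul_of_nonneg_left (h1 j).2 (abs_nonneg _)
    calc |∑ j, a j.succ * Real.log (l j)| / |∑ i, a i|
        ≤ (∑ j : Fin m, |a j.succ| * r) / |∑ i, a i| := by gcongr
      _ = PP a * r := by
          rw [PP, ← Finset.sum_mul, ← Finset.sum_div]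
          ring
  have hd : ∀ j, 0 < dv l j := by
    intro j
    refine Fin.cases ?_ (fun i => ?_) j
    · simp [dv]
    · have : 1 ≤ l i := hl.1 i
      simp only [dv, Fin.cons_succ]
      linarith
  have h3 : Real.log (vv a l j) = tt a l + Real.log (dv l j) := by
    unfold vv
    rw [Pi.smul_apply, smul_eq_mul, Real.log_mul (Real.exp_pos _).ne' (hd j).ne', Real.log_exp]
  have h4 : |Real.log (dv l j)| ≤ r ∨ Real.log (dv l j) = 0 := by
    refine Fin.cases ?_ (fun i => ?_) j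
    · right
      simp [dv]
    · left
      simp only [dv, Fin.cons_succ]
      rw [abs_of_nonneg (h1 i).1]
      exact (h1 i).2
  rw [h3]
  refine (abs_add_le _ _).trans ?_
  rcases h4 with h4 | h4
  · linarith
  · rw [h4, abs_zero, add_zero]
    linarith

/-- translations -/
lemma ext0_tr (p : Fin n → ℝ) (f : (Fin n → ℝ) → ℂ) (x : Fin n → ℝ) (t : ℝ) :
    ‖ext0 (on n) (fun ξ => f (p + ξ)) (x, t)‖ₑ = ‖ext0 (on n) f (x - (2 * t) • p, t)‖ₑ := by
  have h1 : ext0 (on n) (fun ξ => f (p + ξ)) (x, t) =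
      cexp (2 * Real.pi * I * ((-∑ j, p j * x j + (∑ j, p j ^ 2) * t : ℝ) : ℂ)) *
        ext0 (on n) f (x - (2 * t) • p, t) := by
    unfold ext0
    rw [← integral_const_mul, ← integral_add_left_eq_self
      (fun ξ => cexp (2 * Real.pi * I * ((-∑ j, p j * x j + (∑ j, p j ^ 2) * t : ℝ) : ℂ)) *
        (f ξ * cexp (2 * Real.pi * I * (ph (on n) ξ (x - (2 * t) • p, t) : ℂ)))) p]
    congr 1
    ext ξ
    have h2 : ph (on n) ξ (x, t) = (-∑ j, p j * x j + (∑ j, p j ^ 2) * t) +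
        ph (on n) (p + ξ) (x - (2 * t) • p, t) := by
      unfold ph
      simp only [Pi.add_apply, Pi.sub_apply, Pi.smul_apply, smul_eq_mul, one_mul]
      rw [← Finset.sum_neg_distrib, Finset.sum_mul, Finset.sum_mul, Finset.sum_mul,
        ← Finset.sum_add_distrib, ← Finset.sum_add_distrib, ← Finset.sum_add_distrib,
        ← Finset.sum_add_distrib]
      exact Finset.sum_congr rfl fun j _ => by ring
    rw [h2, e_add]
    ring
  rw [h1, enorm_mul, ← ofReal_norm (cexp _), norm_e, ENNReal.ofReal_one, one_mul]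

lemma lint_tr (p : Fin n → ℝ) (K : (Fin n → ℝ) × ℝ → ℝ≥0∞) (hK : Measurable K) :
    ∫⁻ y : (Fin n → ℝ) × ℝ, K (y.1 - (2 * y.2) • p, y.2) = ∫⁻ y, K y := by
  have hm : Measurable fun y : (Fin n → ℝ) × ℝ => K (y.1 - (2 * y.2) • p, y.2) :=
    hK.comp (by fun_prop)
  rw [Measure.volume_eq_prod, lintegral_prod_symm _ hm.aemeasurable,
    lintegral_prod_symm _ hK.aemeasurable]
  apply lintegral_congr
  intro t
  exact lintegral_sub_right_eq_self (fun x => K (x, t)) ((2 * t) • p)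

lemma int_tr (p : Fin n → ℝ) {f : (Fin n → ℝ) → ℂ} (hf : Measurable f) (q : ℝ) :
    ∫⁻ y, ‖ext0 (on n) (fun ξ => f (p + ξ)) y‖ₑ ^ q = ∫⁻ y, ‖ext0 (on n) f y‖ₑ ^ q := by
  rw [← lint_tr p (fun y => ‖ext0 (on n) f y‖ₑ ^ q) ((ext0_meas _ hf).enorm.pow_const q)]
  apply lintegral_congr
  intro y
  rw [ext0_tr p f y.1 y.2]

/-- translations and scaling -/
lemma int_scale (p : Fin n → ℝ) {f : (Fin n → ℝ) → ℂ} (hf : Measurable f) (q : ℝ) (hq : 0 ≤ q)
    (K : ℝ) (hK : 0 < K) :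
    ∫⁻ y, ‖ext0 (on n) f y‖ₑ ^ q = (ENNReal.ofReal (K ^ n) ^ q *
      ENNReal.ofReal ((K ^ (n + 2))⁻¹)) * ∫⁻ y, ‖ext0 (on n) (fun ξ => f (p + K • ξ)) y‖ₑ ^ q := by
  have hg : Measurable fun ξ => f (p + K • ξ) := hf.comp (by fun_prop)
  rw [← int_tr p hf q]
  have h1 : ∀ y, ‖ext0 (on n) (fun ξ => f (p + ξ)) y‖ₑ ^ q = ENNReal.ofReal (K ^ n) ^ q *
      ‖ext0 (on n) (fun ξ => f (p + K • ξ)) (K • y.1, K ^ 2 * y.2)‖ₑ ^ q := by
    intro y
    have h3 : ‖((K ^ n : ℝ) : ℂ)‖ₑ = ENNReal.ofReal (K ^ n) := by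
      rw [← ofReal_norm, Complex.norm_real, Real.norm_of_nonneg (by positivity)]
    rw [ext0_scale (on n) K hK (fun ξ => f (p + ξ)) y, enorm_mul, h3,
      ENNReal.mul_rpow_of_nonneg _ _ hq]
  simp only [h1]
  rw [lintegral_const_mul' _ _ (ENNReal.rpow_ne_top_of_nonneg hq ENNReal.ofReal_ne_top),
    lint_scale K hK (fun y => ‖ext0 (on n) (fun ξ => f (p + K • ξ)) y‖ₑ ^ q)
      ((ext0_meas _ hg).enorm.pow_const q), mul_assoc]

/-- the point `p + e^τ (ξ - p)` -/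
noncomputable def fl (p τ ξ : Fin n → ℝ) : Fin n → ℝ := fun j => p j + Real.exp (τ j) * (ξ j - p j)

lemma fl_aff (p τ ξ : Fin n → ℝ) (K : ℝ) :
    fl p τ (p + K • ξ) = p + K • ((fun j => Real.exp (τ j)) * ξ) := by
  funext j
  simp only [fl, Pi.add_apply, Pi.smul_apply, smul_eq_mul, Pi.mul_apply]
  ring

lemma lint_aff (p : Fin n → ℝ) (K : ℝ) (hK : 0 < K) (F : (Fin n → ℝ) → ℝ≥0∞) (hF : Measurable F) :
    ∫⁻ ξ, F (p + K • ξ) = ENNReal.ofReal ((K ^ n)⁻¹) * ∫⁻ ξ, F ξ := by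
  have h3 := lintegral_map (μ := (volume : Measure (Fin n → ℝ))) (f := fun ξ => F (p + ξ))
    (g := fun x => K • x) (hF.comp (by fun_prop)) (by fun_prop)
  rw [Measure.map_addHaar_smul volume hK.ne', lintegral_smul_measure, smul_eq_mul,
    Module.finrank_fin_fun, abs_of_pos (by positivity)] at h3
  rw [← h3, lintegral_add_left_eq_self F p]

end Pool.Agent.Helper25.CL
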