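import Mathlib
import Pool.Agent.Helper25.CL.F
set_option autoImplicit false

/-! The main theorem. -/

namespace Pool.Agent.Helper25.CL

open MeasureTheory Set Complex Filter Topology
open scoped ENNReal NNReal
open Pool.Agent.H153R4 (ext0 ext0_meas dv ph)
open Pool.Agent.W777.MF (tt PP PP_nonneg LL LL_gt tt_bd tt_inv ext0_scale lint_scale norm_e e_add)

variable {m n : ℕ}

lemma ext0_sup {f : (Fin n → ℝ) → ℂ} (H : Bd f 1 1) (c : Fin n → ℝ) (y : (Fin n → ℝ) × ℝ) :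
    ‖ext0 c f y‖ₑ ≤ ENNReal.ofReal (2 ^ n) := by
  unfold ext0
  refine (enorm_integral_le_lintegral_enorm _).trans ?_
  calc ∫⁻ ξ, ‖f ξ * cexp (2 * Real.pi * I * (ph c ξ y : ℂ))‖ₑ ≤
      ∫⁻ ξ, (Icc (fun _ : Fin n => (-1 : ℝ)) (fun _ => 1)).indicator (fun _ => 1) ξ := by
        apply lintegral_mono
        intro ξ
        simp only
        rw [enorm_mul, ← ofReal_norm (cexp _), norm_e, ENNReal.ofReal_one, mul_one]
        by_cases hξ : ξ ∈ Icc (fun _ : Fin n => (-1 : ℝ)) (fun _ => 1)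
        · rw [indicator_of_mem hξ, ← ofReal_norm, ← ENNReal.ofReal_one]
          exact ENNReal.ofReal_le_ofReal (H.bd ξ)
        · rw [H.off ξ hξ, enorm_zero]
          exact bot_le
    _ = ENNReal.ofReal (2 ^ n) := by
        rw [lintegral_indicator measurableSet_Icc, setLIntegral_one, Real.volume_Icc_pi]
        simp only [Finset.prod_const, Finset.card_univ, Fintype.card_fin]
        rw [← ENNReal.ofReal_pow (by norm_num)]
        norm_num

/-- the theorem for exponents near the critical one -/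
theorem near (m : ℕ) (hm : 0 < m) (q : ℝ) (hq : 2 + 2 / (1 + (m : ℝ)) < q) (hq4 : q < 4)
    (a : Fin (m + 1) → ℝ) (ha : ∑ j, a j ≠ 0) (σ : ℝ) (hσ : m * ((q - 2) / 2) < 2 * σ) (P : ℝ)
    (hP : 0 ≤ P) :
    ∃ C : ℝ≥0∞, C < ⊤ ∧ ∀ (p : Fin (m + 1) → ℝ), (∀ j, |p j| ≤ P) →
      ∀ (χ : (Fin (m + 1) → ℝ) → ℂ) (f : (Fin (m + 1) → ℝ) → ℂ) (A : ℝ≥0∞), A ≠ ⊤ →
      Measurable χ → (∀ τ, ‖χ τ‖ ≤ 1) → Bd f 1 1 →
      (∀ τ : Fin (m + 1) → ℝ, ∑ j, a j * τ j = 0 → ‖τ‖ ≤ 1 →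
        ∫⁻ ξ, ‖χ τ * f (fl p τ ξ) - f ξ‖ₑ ^ 2 ≤ A * ENNReal.ofReal (‖τ‖ ^ (2 * σ))) →
      ∫⁻ y, ‖ext0 (on (m + 1)) f y‖ₑ ^ q ≤ C * (1 + A) := by
  obtain ⟨C, hC, tele⟩ := tele m hm q hq hq4 a σ hσ
  have hm0 : (0 : ℝ) < m := by exact_mod_cast hm
  have hq2 : 2 < q := lt_trans (by
    have : 0 < 2 / (1 + (m : ℝ)) := by positivity
    linarith) hq
  have hq0 : 0 < q := by linarith
  have hσ0 : 0 < σ := by
    have : 0 < m * ((q - 2) / 2) := mul_pos hm0 (by linarith)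
    linarith
  set K : ℝ := 4 * (1 + P) with hK
  have hK0 : 0 < K := by positivity
  have hK1 : 1 ≤ K := by rw [hK]; linarith
  set D : ℝ≥0∞ := ENNReal.ofReal (K ^ (m + 1)) ^ q * ENNReal.ofReal ((K ^ (m + 1 + 2))⁻¹) with hD
  have hDt : D < ⊤ := ENNReal.mul_lt_top (ENNReal.rpow_lt_top_of_nonneg hq0.le
    ENNReal.ofReal_ne_top) ENNReal.ofReal_lt_top
  set B : ℝ≥0∞ := ENNReal.ofReal ((PP a + 1) ^ (2 * σ)) with hB
  refine ⟨D * ((2 * C) ^ q * (1 + B)), ENNReal.mul_lt_top hDt (ENNReal.mul_lt_top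
    (ENNReal.rpow_lt_top_of_nonneg hq0.le (ENNReal.mul_lt_top (by norm_num) hC).ne)
    (ENNReal.add_lt_top.2 ⟨ENNReal.one_lt_top, ENNReal.ofReal_lt_top⟩)), ?_⟩
  intro p hp χ f A hA hχm hχ hf hreg
  set g : (Fin (m + 1) → ℝ) → ℂ := fun ξ => f (p + K • ξ) with hg
  have hgB : Bd g 1 (1 / 4) := by
    refine ⟨hf.ms.comp (by fun_prop), fun ξ => hf.bd _, fun ξ ⟨j, hj⟩ => hf.st _ ⟨j, ?_⟩⟩
    simp only [Pi.add_apply, Pi.smul_apply, smul_eq_mul]
    have h1 := hp j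
    have h2 : |K * ξ j| ≤ |p j + K * ξ j| + |p j| := by
      have : K * ξ j = (p j + K * ξ j) - p j := by ring
      rw [this]
      exact (abs_sub _ _).trans (by simp)
    rw [abs_mul, abs_of_pos hK0] at h2
    have h3 : 1 + P < K * |ξ j| := by
      rw [hK]
      nlinarith
    linarith
  set w : (Fin m → ℝ) → ℂ := fun l => χ fun j => Real.log (vv a l j) with hw
  have hwW : Wt w := by
    refine ⟨hχm.comp ?_, fun l => hχ _⟩
    exact measurable_pi_lambda _ fun j =>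
      Real.measurable_log.comp ((measurable_pi_apply j).comp (vv_meas a))
  have hreg' : ∀ r : ℝ, 0 < r → r ≤ ra a → ∀ l ∈ Icc (fun _ : Fin m => (1 : ℝ)) (fun _ => 1 + r),
      ∫⁻ ξ, ‖w l * g (vv a l * ξ) - g ξ‖ₑ ^ 2 ≤ (A * B) * ENNReal.ofReal (r ^ (2 * σ)) := by
    intro r hr0 hr l hl
    have hlL := ra_sub a hr hl
    set τ : Fin (m + 1) → ℝ := fun j => Real.log (vv a l j) with hτ
    have hv0 : ∀ j, 0 < vv a l j := fun j => by linarith [(vv_bd hlL j).1]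
    have t1 : ∑ j, a j * τ j = 0 := tt_inv ha hlL
    have t2 : ‖τ‖ ≤ 1 := by
      rw [pi_norm_le_iff_of_nonneg zero_le_one]
      intro j
      rw [Real.norm_eq_abs, hτ]
      simp only
      obtain ⟨b1, b2⟩ := vv_bd hlL j
      have l2 : Real.log 2 ≤ 1 := by
        have := Real.log_two_lt_d9
        linarith
      rw [abs_le]
      constructor
      · have := Real.log_le_log (by norm_num : (0 : ℝ) < 1 / 2) b1
        rw [one_div, Real.log_inv] at this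
        linarith
      · have := Real.log_le_log (hv0 j) b2
        linarith
    have t3 : ‖τ‖ ≤ (PP a + 1) * r := by
      rw [pi_norm_le_iff_of_nonneg (mul_nonneg (by linarith [PP_nonneg a]) hr0.le)]
      intro j
      rw [Real.norm_eq_abs]
      exact log_vv hr0.le hl j
    have t4 : (fun j => Real.exp (τ j)) = vv a l := by
      funext j
      rw [hτ]
      exact Real.exp_log (hv0 j)
    have t5 : ∀ ξ, g (vv a l * ξ) = f (fl p τ (p + K • ξ)) := by
      intro ξ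
      rw [fl_aff, t4]
    have hG : Measurable fun ξ => ‖χ τ * f (fl p τ ξ) - f ξ‖ₑ ^ 2 := by
      have : Measurable fun ξ => fl p τ ξ := by
        unfold fl
        fun_prop
      exact (((hf.ms.comp this).const_mul _).sub hf.ms).enorm.pow_const 2
    calc ∫⁻ ξ, ‖w l * g (vv a l * ξ) - g ξ‖ₑ ^ 2 =
        ∫⁻ ξ, (fun ξ => ‖χ τ * f (fl p τ ξ) - f ξ‖ₑ ^ 2) (p + K • ξ) := by
          apply lintegral_congr
          intro ξ
          simp only [t5]
          rfl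
      _ = ENNReal.ofReal ((K ^ (m + 1))⁻¹) * ∫⁻ ξ, ‖χ τ * f (fl p τ ξ) - f ξ‖ₑ ^ 2 :=
          lint_aff p K hK0 _ hG
      _ ≤ 1 * (A * ENNReal.ofReal (‖τ‖ ^ (2 * σ))) := by
          gcongr
          · rw [← ENNReal.ofReal_one]
            apply ENNReal.ofReal_le_ofReal
            exact inv_le_one_of_one_le₀ (one_le_pow₀ hK1)
          · exact hreg τ t1 t2
      _ ≤ A * (B * ENNReal.ofReal (r ^ (2 * σ))) := by
          rw [one_mul, hB, ← ENNReal.ofReal_mul (by have := PP_nonneg a; positivity)]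
          gcongr
          rw [← Real.mul_rpow (by linarith [PP_nonneg a]) hr0.le]
          exact Real.rpow_le_rpow (norm_nonneg _) t3 (by positivity)
      _ = _ := by rw [mul_assoc]
  have hAB : A * B ≠ ⊤ := ENNReal.mul_ne_top hA ENNReal.ofReal_ne_top
  have h1 := tele w g (A * B) hAB hwW hgB hreg'
  rw [NN_eq m q hq0] at h1
  have h2 : ∫⁻ y, ‖ext0 (on (m + 1)) g y‖ₑ ^ q ≤ (2 * C) ^ q * (1 + A * B) := by
    have h3 := ENNReal.rpow_le_rpow h1 hq0.le
    rw [← ENNReal.rpow_mul, one_div_mul_cancel hq0.ne', ENNReal.rpow_one] at h3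
    refine h3.trans ?_
    rw [ENNReal.mul_rpow_of_nonneg _ _ hq0.le, ENNReal.mul_rpow_of_nonneg _ _ hq0.le]
    have h4 : (1 + (A * B) ^ (1 / q)) ^ q ≤ 2 ^ q * (1 + A * B) := by
      rcases le_total (1 : ℝ≥0∞) (A * B) with h | h
      · have h5 : (1 : ℝ≥0∞) ≤ (A * B) ^ (1 / q) := ENNReal.one_le_rpow h (by positivity)
        calc (1 + (A * B) ^ (1 / q)) ^ q ≤ (2 * (A * B) ^ (1 / q)) ^ q := by
              gcongr
              rw [two_mul]
              gcongr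
          _ = 2 ^ q * (A * B) := by
              rw [ENNReal.mul_rpow_of_nonneg _ _ hq0.le, ← ENNReal.rpow_mul,
                one_div_mul_cancel hq0.ne', ENNReal.rpow_one]
          _ ≤ _ := by
              gcongr
              exact le_add_self
      · have h5 : (A * B) ^ (1 / q) ≤ 1 := ENNReal.rpow_le_one h (by positivity)
        calc (1 + (A * B) ^ (1 / q)) ^ q ≤ 2 ^ q := by
              gcongr
              calc 1 + (A * B) ^ (1 / q) ≤ 1 + 1 := by gcongr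
                _ = 2 := by norm_num
          _ = 2 ^ q * 1 := (mul_one _).symm
          _ ≤ _ := by
              gcongr
              exact le_self_add
    calc C ^ q * (1 + (A * B) ^ (1 / q)) ^ q ≤ C ^ q * (2 ^ q * (1 + A * B)) := by gcongr
      _ = _ := by ring
  rw [int_scale p hf.ms q hq0.le K hK0, ← hD]
  calc D * ∫⁻ y, ‖ext0 (on (m + 1)) g y‖ₑ ^ q ≤ D * ((2 * C) ^ q * (1 + A * B)) := by gcongr
    _ ≤ D * ((2 * C) ^ q * ((1 + B) * (1 + A))) := by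
        gcongr
        calc 1 + A * B ≤ 1 + A * B + (A + B) := le_self_add
          _ = _ := by ring
    _ = _ := by ring

/-- **the main theorem** -/
theorem curved (m : ℕ) (hm : 0 < m) (q : ℝ) (hq : 2 + 2 / (1 + (m : ℝ)) < q)
    (a : Fin (m + 1) → ℝ) (ha : ∑ j, a j ≠ 0) (σ : ℝ) (hσ : m / (2 * (1 + (m : ℝ))) < σ) (P : ℝ)
    (hP : 0 ≤ P) :
    ∃ C : ℝ≥0∞, C < ⊤ ∧ ∀ (p : Fin (m + 1) → ℝ), (∀ j, |p j| ≤ P) →
      ∀ (χ : (Fin (m + 1) → ℝ) → ℂ) (f : (Fin (m + 1) → ℝ) → ℂ) (A : ℝ≥0∞), A ≠ ⊤ →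
      Measurable χ → (∀ τ, ‖χ τ‖ ≤ 1) → Bd f 1 1 →
      (∀ τ : Fin (m + 1) → ℝ, ∑ j, a j * τ j = 0 → ‖τ‖ ≤ 1 →
        ∫⁻ ξ, ‖χ τ * f (fl p τ ξ) - f ξ‖ₑ ^ 2 ≤ A * ENNReal.ofReal (‖τ‖ ^ (2 * σ))) →
      ∫⁻ y, ‖ext0 (on (m + 1)) f y‖ₑ ^ q ≤ C * (1 + A) := by
  have hm0 : (0 : ℝ) < m := by exact_mod_cast hm
  have hm1 : (1 : ℝ) ≤ m := by exact_mod_cast hm
  set c : ℝ := 2 + 2 / (1 + (m : ℝ)) with hc
  have hc2 : 2 < c := by
    have : 0 < 2 / (1 + (m : ℝ)) := by positivity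
    linarith
  have hc4 : c < 4 := by
    have : 2 / (1 + (m : ℝ)) ≤ 1 := by
      rw [div_le_one (by positivity)]
      linarith
    linarith
  have hcσ : c < 2 + 4 * σ / m := by
    have h1 : m < σ * (2 * (1 + (m : ℝ))) := (div_lt_iff₀ (by positivity)).1 hσ
    have : 2 / (1 + (m : ℝ)) < 4 * σ / m := by
      rw [div_lt_div_iff₀ (by positivity) hm0]
      linarith
    linarith
  set Q : ℝ := min q (min 4 (2 + 4 * σ / m)) with hQ
  have hQc : c < Q := lt_min hq (lt_min hc4 hcσ)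
  have hQq : Q ≤ q := min_le_left _ _
  have hQ4 : Q ≤ 4 := (min_le_right _ _).trans (min_le_left _ _)
  have hQσ : Q ≤ 2 + 4 * σ / m := (min_le_right _ _).trans (min_le_right _ _)
  set q' : ℝ := (c + Q) / 2 with hq'
  have e1 : c < q' := by rw [hq']; linarith
  have e2 : q' < Q := by rw [hq']; linarith
  have e3 : m * ((q' - 2) / 2) < 2 * σ := by
    have h1 : q' - 2 < 4 * σ / m := by linarith
    have h2 : m * (q' - 2) < 4 * σ := by
      have := mul_lt_mul_of_pos_left h1 hm0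
      rwa [mul_div_cancel₀ _ hm0.ne'] at this
    linarith
  obtain ⟨C, hC, h⟩ := near m hm q' e1 (by linarith) a ha σ e3 P hP
  have hE : ENNReal.ofReal (2 ^ (m + 1)) ^ (q - q') < ⊤ :=
    ENNReal.rpow_lt_top_of_nonneg (by linarith) ENNReal.ofReal_ne_top
  refine ⟨ENNReal.ofReal (2 ^ (m + 1)) ^ (q - q') * C, ENNReal.mul_lt_top hE hC, ?_⟩
  intro p hp χ f A hA hχm hχ hf hreg
  calc ∫⁻ y, ‖ext0 (on (m + 1)) f y‖ₑ ^ q ≤
      ∫⁻ y, ENNReal.ofReal (2 ^ (m + 1)) ^ (q - q') * ‖ext0 (on (m + 1)) f y‖ₑ ^ q' := by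
        apply lintegral_mono
        intro y
        simp only
        have h1 : ‖ext0 (on (m + 1)) f y‖ₑ ^ q =
            ‖ext0 (on (m + 1)) f y‖ₑ ^ (q - q') * ‖ext0 (on (m + 1)) f y‖ₑ ^ q' := by
          rw [← ENNReal.rpow_add_of_nonneg _ _ (by linarith) (by linarith)]
          congr 1
          ring
        rw [h1]
        gcongr
        · linarith
        · exact ext0_sup hf _ y
    _ = ENNReal.ofReal (2 ^ (m + 1)) ^ (q - q') * ∫⁻ y, ‖ext0 (on (m + 1)) f y‖ₑ ^ q' :=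
        lintegral_const_mul' _ _ hE.ne
    _ ≤ ENNReal.ofReal (2 ^ (m + 1)) ^ (q - q') * (C * (1 + A)) := by
        gcongr
        exact h p hp χ f A hA hχm hχ hf hreg
    _ = _ := by rw [mul_assoc]

end Pool.Agent.Helper25.CL
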