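import Mathlib
import Pool.Agent.Helper25.CL.G
set_option autoImplicit false

/-! Functions which are constant along the leaves, on rough domains. -/

namespace Pool.Agent.Helper25.CL

open MeasureTheory Set Complex Filter Topology
open scoped ENNReal NNReal
open Pool.Agent.H153R4 (ext0 ext0_meas dv ph)

variable {m n : ℕ}

/-- the set where the indicator function changes -/
lemma diff_sub {S : Set (Fin n → ℝ)} {ξ ξ' : Fin n → ℝ} {R : ℝ} (h : dist ξ ξ' ≤ R)
    (hS : ¬(ξ ∈ S ↔ ξ' ∈ S)) : ξ ∈ Metric.cthickening R (frontier S) := by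
  have h1 : (segment ℝ ξ ξ' ∩ frontier S).Nonempty := by
    have hc : IsPreconnected (segment ℝ ξ ξ') := (convex_segment ξ ξ').isPreconnected
    by_contra hne
    rw [not_nonempty_iff_eq_empty] at hne
    have hc1 := hc.subset_or_subset (isOpen_interior (s := S)) (isOpen_interior (s := Sᶜ))
      (by
        rw [Set.disjoint_left]
        intro x hx hx'
        exact interior_subset hx' (interior_subset hx)) (by
        intro x hx
        by_contra h3
        rw [mem_union, not_or] at h3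
        have : x ∈ frontier S := by
          rw [frontier, Set.mem_sdiff]
          refine ⟨?_, h3.1⟩
          rw [← compl_compl (closure S), ← interior_compl]
          exact h3.2
        have h4 : x ∈ segment ℝ ξ ξ' ∩ frontier S := ⟨hx, this⟩
        rw [hne] at h4
        exact h4)
    apply hS
    rcases hc1 with h2 | h2
    · exact iff_of_true (interior_subset (h2 (left_mem_segment ℝ ξ ξ')))
        (interior_subset (h2 (right_mem_segment ℝ ξ ξ')))
    · exact iff_of_false (interior_subset (h2 (left_mem_segment ℝ ξ ξ')))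
        (interior_subset (h2 (right_mem_segment ℝ ξ ξ')))
  obtain ⟨z, hz, hzf⟩ := h1
  refine Metric.mem_cthickening_of_dist_le ξ z R _ hzf ?_
  have h2 : segment ℝ ξ ξ' ⊆ Metric.closedBall ξ (dist ξ ξ') := by
    apply (convex_closedBall ξ (dist ξ ξ')).segment_subset
    · exact Metric.mem_closedBall_self dist_nonneg
    · rw [Metric.mem_closedBall, dist_comm]
  have h3 := h2 hz
  rw [Metric.mem_closedBall, dist_comm] at h3
  exact h3.trans h

lemma fl_dist (p τ ξ : Fin n → ℝ) (P : ℝ) (hp : ∀ j, |p j| ≤ P) (hτ : ‖τ‖ ≤ 1)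
    (h : ξ ∈ Icc (fun _ : Fin n => (-1 : ℝ)) (fun _ => 1) ∨
      fl p τ ξ ∈ Icc (fun _ : Fin n => (-1 : ℝ)) (fun _ => 1)) :
    dist ξ (fl p τ ξ) ≤ 2 * (1 + P) * ‖τ‖ := by
  by_cases hn : n = 0
  · subst hn
    have : ξ = fl p τ ξ := Subsingleton.elim _ _
    rw [← this, dist_self]
    have : ‖τ‖ = 0 := by
      have : τ = 0 := Subsingleton.elim _ _
      rw [this, norm_zero]
    rw [this, mul_zero]
  have hP : 0 ≤ P := (abs_nonneg _).trans (hp ⟨0, Nat.pos_of_ne_zero hn⟩)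
  rw [dist_pi_le_iff (by positivity)]
  intro j
  have hτj : |τ j| ≤ ‖τ‖ := norm_le_pi_norm τ j
  have key : ∀ (x s : ℝ), |x| ≤ 1 → |s| ≤ ‖τ‖ → |(Real.exp s - 1) * (x - p j)| ≤
      2 * (1 + P) * ‖τ‖ := by
    intro x s hx hs
    rw [abs_mul]
    have h1 := Real.abs_exp_sub_one_le (hs.trans hτ)
    have h2 : |x - p j| ≤ 1 + P := (abs_sub _ _).trans (add_le_add hx (hp j))
    calc |Real.exp s - 1| * |x - p j| ≤ (2 * ‖τ‖) * (1 + P) := by
          gcongr
          exact h1.trans (by linarith)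
      _ = _ := by ring
  rw [Real.dist_eq]
  rcases h with h | h
  · have e1 : |ξ j - fl p τ ξ j| = |(Real.exp (τ j) - 1) * (ξ j - p j)| := by
      rw [abs_sub_comm]
      congr 1
      simp only [fl]
      ring
    rw [e1]
    exact key _ _ (abs_le.2 ⟨h.1 j, h.2 j⟩) hτj
  · have e1 : |ξ j - fl p τ ξ j| = |(Real.exp (-τ j) - 1) * (fl p τ ξ j - p j)| := by
      congr 1
      simp only [fl]
      have : Real.exp (-τ j) * Real.exp (τ j) = 1 := by
        rw [← Real.exp_add]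
        simp
      linear_combination (-(ξ j - p j)) * this
    rw [e1]
    exact key _ _ (abs_le.2 ⟨h.1 j, h.2 j⟩) (by rwa [abs_neg])

/-- the volume of the set where the indicator function changes -/
lemma vol_diff (p τ : Fin n → ℝ) (P : ℝ) (hP : 0 ≤ P) (hp : ∀ j, |p j| ≤ P) (hτ : ‖τ‖ ≤ 1)
    (σ : ℝ) (hσ : 0 < σ) {S : Set (Fin n → ℝ)} (V : ℝ≥0∞)
    (hS : S ⊆ Icc (fun _ : Fin n => (-1 : ℝ)) (fun _ => 1))
    (hV : ∀ r : ℝ, 0 < r → r ≤ 1 →
      volume (Metric.cthickening r (frontier S)) ≤ V * ENNReal.ofReal (r ^ (2 * σ))) :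
    volume {ξ | ¬(fl p τ ξ ∈ S ↔ ξ ∈ S)} ≤ (V + ENNReal.ofReal ((2 * (2 + 2 * (1 + P))) ^ n)) *
      ENNReal.ofReal ((2 * (1 + P)) ^ (2 * σ)) * ENNReal.ofReal (‖τ‖ ^ (2 * σ)) := by
  set D : Set (Fin n → ℝ) := {ξ | ¬(fl p τ ξ ∈ S ↔ ξ ∈ S)} with hD
  set R : ℝ := 2 * (1 + P) * ‖τ‖ with hR
  have hR0 : 0 ≤ R := by positivity
  have hdist : ∀ ξ ∈ D, dist ξ (fl p τ ξ) ≤ R := by
    intro ξ hξ
    apply fl_dist p τ ξ P hp hτ
    by_contra hne
    rw [not_or] at hne
    exact hξ (iff_of_false (fun h => hne.2 (hS h)) fun h => hne.1 (hS h))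
  have hRe : ENNReal.ofReal ((2 * (1 + P)) ^ (2 * σ)) * ENNReal.ofReal (‖τ‖ ^ (2 * σ)) =
      ENNReal.ofReal (R ^ (2 * σ)) := by
    rw [← ENNReal.ofReal_mul (by positivity), ← Real.mul_rpow (by positivity) (norm_nonneg _)]
  rw [mul_assoc, hRe]
  rcases le_or_gt R 1 with h1 | h1
  · rcases hR0.eq_or_lt with h0 | h0
    · have : D = ∅ := by
        rw [eq_empty_iff_forall_notMem]
        intro ξ hξ
        have h2 := hdist ξ hξ
        rw [← h0] at h2
        have h3 := dist_le_zero.1 h2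
        apply hξ
        rw [← h3]
      rw [this, measure_empty]
      exact bot_le
    · have h2 : D ⊆ Metric.cthickening R (frontier S) := fun ξ hξ =>
        diff_sub (hdist ξ hξ) fun h => hξ h.symm
      refine (measure_mono h2).trans ((hV R h0 h1).trans ?_)
      gcongr
      exact le_self_add
  · have h2 : D ⊆ Metric.closedBall 0 (2 + 2 * (1 + P)) := by
      intro ξ hξ
      rw [Metric.mem_closedBall]
      have hcube : ∀ x ∈ Icc (fun _ : Fin n => (-1 : ℝ)) (fun _ => 1), dist x 0 ≤ 1 := by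
        intro x hx
        rw [dist_zero_right, pi_norm_le_iff_of_nonneg zero_le_one]
        intro j
        rw [Real.norm_eq_abs]
        exact abs_le.2 ⟨hx.1 j, hx.2 j⟩
      have h4 := hdist ξ hξ
      have h5 : R ≤ 2 * (1 + P) := by
        rw [hR]
        exact mul_le_of_le_one_right (by positivity) hτ
      by_cases h3 : ξ ∈ S
      · have := hcube ξ (hS h3)
        linarith
      · have h6 : fl p τ ξ ∈ S := by
          by_contra h7
          exact hξ (iff_of_false h7 h3)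
        have := hcube _ (hS h6)
        have := dist_triangle ξ (fl p τ ξ) 0
        linarith
    refine (measure_mono h2).trans ?_
    rw [Real.volume_pi_closedBall _ (by positivity), Fintype.card_fin]
    calc ENNReal.ofReal ((2 * (2 + 2 * (1 + P))) ^ n) =
        ENNReal.ofReal ((2 * (2 + 2 * (1 + P))) ^ n) * 1 := (mul_one _).symm
      _ ≤ _ := by
        gcongr
        · exact le_add_self
        · rw [← ENNReal.ofReal_one]
          exact ENNReal.ofReal_le_ofReal (Real.one_le_rpow h1.le (by positivity))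

/-- functions which are semi-invariant, on rough domains -/
theorem domain (m : ℕ) (hm : 0 < m) (q : ℝ) (hq : 2 + 2 / (1 + (m : ℝ)) < q)
    (a : Fin (m + 1) → ℝ) (ha : ∑ j, a j ≠ 0) (σ : ℝ) (hσ : m / (2 * (1 + (m : ℝ))) < σ) (P : ℝ)
    (hP : 0 ≤ P) :
    ∃ C : ℝ≥0∞, C < ⊤ ∧ ∀ (p : Fin (m + 1) → ℝ), (∀ j, |p j| ≤ P) →
      ∀ (χ : (Fin (m + 1) → ℝ) → ℂ) (h : (Fin (m + 1) → ℝ) → ℂ) (S : Set (Fin (m + 1) → ℝ))
      (V : ℝ≥0∞), V ≠ ⊤ → Measurable χ → (∀ τ, ‖χ τ‖ ≤ 1) → Measurable h → (∀ ξ, ‖h ξ‖ ≤ 1) →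
      (∀ τ : Fin (m + 1) → ℝ, ∑ j, a j * τ j = 0 → ∀ᵐ ξ, χ τ * h (fl p τ ξ) = h ξ) →
      MeasurableSet S → S ⊆ Icc (fun _ : Fin (m + 1) => (-1 : ℝ)) (fun _ => 1) →
      (∀ r : ℝ, 0 < r → r ≤ 1 →
        volume (Metric.cthickening r (frontier S)) ≤ V * ENNReal.ofReal (r ^ (2 * σ))) →
      ∫⁻ y, ‖ext0 (on (m + 1)) (S.indicator h) y‖ₑ ^ q ≤ C * (1 + V) := by
  obtain ⟨C, hC, hmain⟩ := curved m hm q hq a ha σ hσ P hP
  have hσ0 : 0 < σ := lt_trans (by positivity) hσ
  set L : ℝ≥0∞ := ENNReal.ofReal ((2 * (2 + 2 * (1 + P))) ^ (m + 1)) with hL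
  set M : ℝ≥0∞ := ENNReal.ofReal ((2 * (1 + P)) ^ (2 * σ)) with hM
  refine ⟨C * (1 + (1 + L) * M), ENNReal.mul_lt_top hC (ENNReal.add_lt_top.2
    ⟨ENNReal.one_lt_top, ENNReal.mul_lt_top (ENNReal.add_lt_top.2
      ⟨ENNReal.one_lt_top, ENNReal.ofReal_lt_top⟩) ENNReal.ofReal_lt_top⟩), ?_⟩
  intro p hp χ h S V hV hχm hχ hhm hh hinv hSm hS hvol
  have hA : (V + L) * M ≠ ⊤ := ENNReal.mul_ne_top
    (ENNReal.add_ne_top.2 ⟨hV, ENNReal.ofReal_ne_top⟩) ENNReal.ofReal_ne_top
  have hf : Bd (S.indicator h) 1 1 := by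
    refine ⟨hhm.indicator hSm, fun ξ => ?_, fun ξ ⟨j, hj⟩ => indicator_of_notMem (fun hξ => ?_) _⟩
    · exact (norm_indicator_le_norm_self h ξ).trans (hh ξ)
    · have := abs_le.2 ⟨(hS hξ).1 j, (hS hξ).2 j⟩
      linarith
  refine (hmain p hp χ (S.indicator h) ((V + L) * M) hA hχm hχ hf ?_).trans ?_
  · intro τ hτ0 hτ
    refine le_trans ?_ (vol_diff p τ P hP hp hτ σ hσ0 V hS hvol)
    have hDm : MeasurableSet {ξ | ¬(fl p τ ξ ∈ S ↔ ξ ∈ S)} := by
      have h1 : Measurable fun ξ => fl p τ ξ := by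
        unfold fl
        fun_prop
      have h2 : {ξ | ¬(fl p τ ξ ∈ S ↔ ξ ∈ S)} =
          ((fun ξ => fl p τ ξ) ⁻¹' S ∩ Sᶜ) ∪ (((fun ξ => fl p τ ξ) ⁻¹' S)ᶜ ∩ S) := by
        ext ξ
        simp only [mem_ofPred_eq, mem_union, mem_inter_iff, mem_preimage, mem_compl_iff]
        tauto
      rw [h2]
      exact ((h1 hSm).inter hSm.compl).union ((h1 hSm).compl.inter hSm)
    rw [← setLIntegral_one, ← lintegral_indicator hDm]
    apply lintegral_mono_ae
    filter_upwards [hinv τ hτ0] with ξ hξ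
    by_cases h1 : fl p τ ξ ∈ S ↔ ξ ∈ S
    · have h2 : χ τ * S.indicator h (fl p τ ξ) - S.indicator h ξ = 0 := by
        by_cases h3 : ξ ∈ S
        · rw [indicator_of_mem h3, indicator_of_mem (h1.2 h3), hξ, sub_self]
        · rw [indicator_of_notMem h3, indicator_of_notMem fun h4 => h3 (h1.1 h4), mul_zero,
            sub_self]
      rw [h2, enorm_zero]
      simp
    · rw [indicator_of_mem (show ξ ∈ {ξ | ¬(fl p τ ξ ∈ S ↔ ξ ∈ S)} from h1)]
      have h2 : ‖χ τ * S.indicator h (fl p τ ξ) - S.indicator h ξ‖ₑ ≤ 1 := by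
        rw [← ofReal_norm, ← ENNReal.ofReal_one]
        apply ENNReal.ofReal_le_ofReal
        by_cases h3 : ξ ∈ S
        · have h4 : fl p τ ξ ∉ S := fun h4 => h1 (iff_of_true h4 h3)
          rw [indicator_of_mem h3, indicator_of_notMem h4, mul_zero, zero_sub, norm_neg]
          exact hh ξ
        · rw [indicator_of_notMem h3, sub_zero, norm_mul]
          calc ‖χ τ‖ * ‖S.indicator h (fl p τ ξ)‖ ≤ 1 * 1 :=
                mul_le_mul (hχ τ) (hf.bd _) (norm_nonneg _) zero_le_one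
            _ = 1 := one_mul 1
      exact (pow_le_pow_left' h2 2).trans (by norm_num)
  · rw [mul_assoc]
    gcongr
    calc 1 + (V + L) * M ≤ 1 + (V + L) * M + (M + V + V * L * M) := le_self_add
      _ = (1 + (1 + L) * M) * (1 + V) := by ring

/-- the boundary of the cube -/
lemma cube_frontier (n : ℕ) (hn : 1 ≤ n) (r : ℝ) (hr0 : 0 < r) (hr1 : r ≤ 1) :
    volume (Metric.cthickening r (frontier (Icc (fun _ : Fin n => (-1 : ℝ)) (fun _ => 1)))) ≤
      ENNReal.ofReal (2 ^ (2 * n + 1) * n) * ENNReal.ofReal (r ^ (2 * (1 / 2 : ℝ))) := by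
  have hc : Icc (fun _ : Fin n => (-1 : ℝ)) (fun _ => 1) = Metric.closedBall 0 1 := by
    ext x
    rw [mem_closedBall_zero_iff, pi_norm_le_iff_of_nonneg zero_le_one]
    simp only [mem_Icc, Pi.le_def, Real.norm_eq_abs, abs_le]
    exact ⟨fun h j => ⟨h.1 j, h.2 j⟩, fun h => ⟨fun j => (h j).1, fun j => (h j).2⟩⟩
  rw [hc, frontier_closedBall _ one_ne_zero]
  have hsub : Metric.cthickening r (Metric.sphere (0 : Fin n → ℝ) 1) ⊆
      Metric.closedBall 0 (1 + r) \ Metric.ball 0 (1 - r) := by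
    intro x hx
    rw [isCompact_sphere (0 : Fin n → ℝ) 1 |>.cthickening_eq_biUnion_closedBall hr0.le] at hx
    simp only [mem_iUnion, exists_prop] at hx
    obtain ⟨z, hz, hxz⟩ := hx
    rw [Metric.mem_closedBall] at hxz
    rw [mem_sphere_zero_iff_norm] at hz
    rw [Set.mem_sdiff, mem_closedBall_zero_iff, mem_ball_zero_iff, not_lt]
    have h1 : ‖x - z‖ ≤ r := by rwa [← dist_eq_norm]
    have h2 := norm_sub_norm_le x z
    have h3 := norm_sub_norm_le z x
    rw [norm_sub_rev] at h3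
    exact ⟨by linarith, by linarith⟩
  refine (measure_mono hsub).trans ?_
  have h1 : (2 : ℝ) * (1 / 2) = 1 := by norm_num
  rw [h1, Real.rpow_one]
  rcases hr1.eq_or_lt with h2 | h2
  · subst h2
    refine (measure_mono sdiff_subset).trans ?_
    rw [Real.volume_pi_closedBall _ (by norm_num), Fintype.card_fin, ENNReal.ofReal_one, mul_one]
    apply ENNReal.ofReal_le_ofReal
    have h3 : (2 * (1 + 1) : ℝ) ^ n = 2 ^ (2 * n) := by
      rw [pow_mul]
      norm_num
    rw [h3]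
    have h4 : (1 : ℝ) ≤ n := by exact_mod_cast hn
    have h5 : (0 : ℝ) < 2 ^ (2 * n) := by positivity
    rw [pow_succ]
    nlinarith
  · rw [measure_sdiff (Metric.ball_subset_closedBall.trans
      (Metric.closedBall_subset_closedBall (by linarith))) measurableSet_ball.nullMeasurableSet
      (by
        rw [Real.volume_pi_ball _ (by linarith)]
        exact ENNReal.ofReal_ne_top), Real.volume_pi_closedBall _ (by linarith),
      Real.volume_pi_ball _ (by linarith), Fintype.card_fin, ← ENNReal.ofReal_sub _ (by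
        have : 0 < 1 - r := by linarith
        positivity), ← ENNReal.ofReal_mul (by positivity)]
    apply ENNReal.ofReal_le_ofReal
    have h3 := abs_pow_sub_pow_le (2 * (1 + r)) (2 * (1 - r)) n
    refine (le_abs_self _).trans (h3.trans ?_)
    have e1 : |2 * (1 + r) - 2 * (1 - r)| = 4 * r := by
      rw [show 2 * (1 + r) - 2 * (1 - r) = 4 * r by ring, abs_of_pos (by positivity)]
    have e2 : max |2 * (1 + r)| |2 * (1 - r)| ≤ 4 := by
      rw [abs_of_pos (by linarith), abs_of_pos (by linarith)]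
      exact max_le (by linarith) (by linarith)
    rw [e1]
    obtain ⟨k, rfl⟩ : ∃ k, n = k + 1 := ⟨n - 1, by omega⟩
    calc 4 * r * ((k + 1 : ℕ) : ℝ) * max |2 * (1 + r)| |2 * (1 - r)| ^ (k + 1 - 1) ≤
        4 * r * ((k + 1 : ℕ) : ℝ) * 4 ^ (k + 1 - 1) := by gcongr
      _ = 4 ^ (k + 1) * ((k + 1 : ℕ) : ℝ) * r := by
          rw [Nat.add_sub_cancel, pow_succ]
          ring
      _ ≤ 2 ^ (2 * (k + 1) + 1) * ((k + 1 : ℕ) : ℝ) * r := by
          have : (4 : ℝ) ^ (k + 1) ≤ 2 ^ (2 * (k + 1) + 1) := by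
            rw [pow_succ 2 (2 * (k + 1)), pow_mul]
            norm_num
          gcongr

end Pool.Agent.Helper25.CL
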